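import Pool.Agent.Lib.MP_8b1d3b_lc.Gr.Defs

/-! Squarefree coefficients of polynomials in column variables. -/

set_option autoImplicit false

namespace Pool.Agent.Lib.MP_8b1d3b_lc.Gr

open Finset MvPolynomial

variable {κ : Type} [DecidableEq κ] {R : Type*} [CommRing R]

/-- the squarefree exponent of a set -/
noncomputable def ind (S : Finset κ) : κ →₀ ℕ := ∑ v ∈ S, Finsupp.single v 1

theorem ind_apply (S : Finset κ) (v : κ) : ind S v = if v ∈ S then 1 else 0 := by
  simp [ind, Finsupp.finsetSum_apply, Finsupp.single_apply]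

theorem ind_inj {S T : Finset κ} (h : ind S = ind T) : S = T := by
  ext v
  have h1 := DFunLike.congr_fun h v
  rw [ind_apply, ind_apply] at h1
  by_cases h2 : v ∈ S <;> by_cases h3 : v ∈ T <;> simp_all

theorem ind_erase {S : Finset κ} {v : κ} (h : v ∈ S) :
    ind (S.erase v) + Finsupp.single v 1 = ind S := by
  unfold ind
  exact Finset.sum_erase_add S _ h

/-- the coefficient of the product of the variables in `S` -/
noncomputable def co (S : Finset κ) : MvPolynomial κ R →ₗ[R] R := lcoeff R (ind S)

omit [DecidableEq κ] in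
theorem co_apply (S : Finset κ) (f : MvPolynomial κ R) : co S f = coeff (ind S) f := rfl

omit [DecidableEq κ] in
theorem co_C_mul (S : Finset κ) (a : R) (f : MvPolynomial κ R) : co S (C a * f) = a * co S f :=
  coeff_C_mul _ _ _

theorem co_mul_X (S : Finset κ) (v : κ) (f : MvPolynomial κ R) :
    co S (f * X v) = if v ∈ S then co (S.erase v) f else 0 := by
  rw [co_apply, coeff_mul_X']
  by_cases h : v ∈ S
  · rw [if_pos h, if_pos (by simp [ind_apply, h]), co_apply, ← ind_erase h, add_tsub_cancel_right]
  · rw [if_neg h, if_neg (by simp [ind_apply, h])]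

theorem co_C (S : Finset κ) (a : R) : co S (C a : MvPolynomial κ R) = if S = ∅ then a else 0 := by
  rw [co_apply, coeff_C]
  by_cases h : S = ∅
  · subst h; simp [ind]
  · rw [if_neg h, if_neg]
    intro h1
    exact h (ind_inj (S := S) (T := ∅) (by rw [← h1]; simp [ind]))

theorem co_one (S : Finset κ) : co S (1 : MvPolynomial κ R) = if S = ∅ then 1 else 0 := by
  rw [← C_1, co_C]

theorem co_pderiv {S : Finset κ} {v : κ} (h : v ∈ S) (f : MvPolynomial κ R) :
    co S f = co (S.erase v) (pderiv v f) := by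
  rw [co_apply, co_apply, coeff_pderiv, ind_erase h]
  simp [ind_apply]

/-- subset convolution -/
theorem co_mul (S : Finset κ) (g f : MvPolynomial κ R) :
    co S (g * f) = ∑ T ∈ S.powerset, co T g * co (S \ T) f := by
  induction f using MvPolynomial.induction_on generalizing S with
  | C a =>
    rw [mul_comm, co_C_mul, sum_eq_single S]
    · simp [co_C, mul_comm]
    · intro T hT hne
      rw [co_C, if_neg, mul_zero]
      intro h
      exact hne (Subset.antisymm (mem_powerset.1 hT) (sdiff_eq_empty_iff_subset.1 h))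
    · intro h
      exact absurd (mem_powerset_self S) h
  | add p q hp hq => simp only [mul_add, map_add, hp, hq, sum_add_distrib]
  | mul_X p v hp =>
    rw [← mul_assoc, co_mul_X]
    simp only [co_mul_X]
    by_cases h : v ∈ S
    · rw [if_pos h, hp]
      symm
      refine (sum_subset (powerset_mono.2 (erase_subset v S)) fun T hT hT' => ?_).symm.trans
        (sum_congr rfl fun T hT => ?_)
      · rw [if_neg, mul_zero]
        intro h1
        exact hT' (mem_powerset.2 (subset_erase.2 ⟨mem_powerset.1 hT, (mem_sdiff.1 h1).2⟩))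
      · have h2 := (subset_erase.1 (mem_powerset.1 hT)).2
        rw [if_pos (mem_sdiff.2 ⟨h, h2⟩), erase_sdiff_comm]
    · rw [if_neg h]
      symm
      refine sum_eq_zero fun T _ => ?_
      rw [if_neg (fun h1 => h (mem_sdiff.1 h1).1), mul_zero]

theorem exists_lift [Fintype κ] (φ : Finset κ → R) :
    ∃ p : MvPolynomial κ R, ∀ S, co S p = φ S := by
  refine ⟨∑ T, monomial (ind T) (φ T), fun S => ?_⟩
  rw [map_sum, sum_eq_single S]
  · rw [co_apply, coeff_monomial, if_pos rfl]
  · intro T _ h
    rw [co_apply, coeff_monomial, if_neg fun h1 => h (ind_inj h1)]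
  · intro h
    exact absurd (mem_univ S) h

/-- the linear form with coefficients `x` on the columns in `D` -/
noncomputable def lf (D : Finset κ) (x : κ → R) : MvPolynomial κ R := ∑ v ∈ D, C (x v) * X v

theorem co_mul_lf (S D : Finset κ) (x : κ → R) (f : MvPolynomial κ R) :
    co S (f * lf D x) = ∑ v ∈ D ∩ S, co (S.erase v) f * x v := by
  rw [lf, mul_sum, map_sum, ← sum_ite_mem]
  refine sum_congr rfl fun v _ => ?_
  rw [mul_left_comm, co_C_mul, co_mul_X]
  split_ifs
  · ring
  · simp

theorem pderiv_lf (D : Finset κ) (x : κ → R) (v : κ) :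
    pderiv v (lf D x) = C (if v ∈ D then x v else 0) := by
  rw [lf, map_sum]
  simp only [pderiv_C_mul, pderiv_X, Pi.single_apply]
  by_cases h : v ∈ D
  · rw [if_pos h, sum_eq_single v]
    · simp
    · intro w _ hw
      simp [hw]
    · intro h1
      exact absurd h h1
  · rw [if_neg h, map_zero]
    refine sum_eq_zero fun w hw => ?_
    have : w ≠ v := fun h1 => h (h1 ▸ hw)
    simp [this]

/-- all squarefree monomials of `f` have weight at least `δ` -/
def Fil (ω : κ → ℤ) (δ : ℤ) (f : MvPolynomial κ R) : Prop := ∀ S, co S f ≠ 0 → δ ≤ wt ω S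

section
variable {ω : κ → ℤ} {δ δ' : ℤ} {f g : MvPolynomial κ R}

omit [DecidableEq κ] in
theorem Fil.mono (h : Fil ω δ f) (h' : δ' ≤ δ) : Fil ω δ' f := fun S hS => h'.trans (h S hS)

theorem Fil.mul (h : Fil ω δ f) (h' : Fil ω δ' g) : Fil ω (δ + δ') (f * g) := by
  intro S hS
  rw [co_mul] at hS
  obtain ⟨T, hT, h1⟩ := exists_ne_zero_of_sum_ne_zero hS
  have h2 := h T (left_ne_zero_of_mul h1)
  have h3 := h' _ (right_ne_zero_of_mul h1)
  have h4 : wt ω (S \ T) + wt ω T = wt ω S := sum_sdiff (mem_powerset.1 hT)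
  omega

omit [DecidableEq κ] in
theorem Fil.add (h : Fil ω δ f) (h' : Fil ω δ g) : Fil ω δ (f + g) := by
  intro S hS
  by_cases h1 : co S f = 0
  · exact h' S fun h2 => hS (by rw [map_add, h1, h2, add_zero])
  · exact h S h1

omit [DecidableEq κ] in
theorem Fil.zero : Fil ω δ (0 : MvPolynomial κ R) := fun _ hS => absurd (map_zero _) hS

omit [DecidableEq κ] in
theorem Fil.zsmul (z : ℤ) (h : Fil ω δ f) : Fil ω δ (z • f) := fun S hS =>
  h S fun h1 => hS (by rw [map_zsmul, h1, smul_zero])

theorem Fil.one : Fil ω 0 (1 : MvPolynomial κ R) := by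
  intro S hS
  rw [co_one] at hS
  have : S = ∅ := by
    by_contra h
    exact hS (if_neg h)
  simp [this, wt]

theorem Fil.lf {D : Finset κ} (x : κ → R) (h : ∀ v ∈ D, δ ≤ ω v) : Fil ω δ (lf D x) := by
  intro S hS
  rw [← one_mul (Gr.lf D x), co_mul_lf] at hS
  obtain ⟨v, hv, h1⟩ := exists_ne_zero_of_sum_ne_zero hS
  have h2 := Fil.one (ω := ω) _ (left_ne_zero_of_mul h1)
  have h3 : wt ω (S.erase v) + ω v = wt ω S := sum_erase_add S ω (mem_inter.1 hv).2
  have h4 := h v (mem_inter.1 hv).1
  have h5 : S.erase v = ∅ := by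
    by_contra h6
    exact left_ne_zero_of_mul h1 (by rw [co_one, if_neg h6])
  rw [h5] at h3
  simp only [wt, sum_empty, zero_add] at h3 ⊢
  omega

theorem Fil.prod {ι : Type*} (s : Finset ι) {d : ι → ℤ} {F : ι → MvPolynomial κ R}
    (h : ∀ i ∈ s, Fil ω (d i) (F i)) : Fil ω (∑ i ∈ s, d i) (∏ i ∈ s, F i) := by
  classical
  induction s using Finset.induction_on with
  | empty => simpa using Fil.one
  | insert a s ha ih =>
    rw [sum_insert ha, prod_insert ha]
    exact (h a (mem_insert_self _ _)).mul (ih fun i hi => h i (mem_insert_of_mem hi))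

theorem Fil.pow (h : Fil ω δ f) (r : ℕ) : Fil ω (r * δ) (f ^ r) := by
  simpa using Fil.prod (range r) (d := fun _ => δ) (F := fun _ => f) fun _ _ => h

end

/-- polynomials without squarefree monomials -/
def Nul (κ : Type) [DecidableEq κ] (R : Type*) [CommRing R] : Ideal (MvPolynomial κ R) where
  carrier := {f | ∀ S, co S f = 0}
  add_mem' := fun {a b} ha hb S => by rw [map_add, ha S, hb S, add_zero]
  zero_mem' := fun S => map_zero _
  smul_mem' := fun c f hf S => by
    rw [smul_eq_mul, co_mul]
    exact sum_eq_zero fun T _ => by rw [hf _, mul_zero]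

theorem mem_nul {f : MvPolynomial κ R} : f ∈ Nul κ R ↔ ∀ S, co S f = 0 := Iff.rfl

theorem co_congr {f g : MvPolynomial κ R}
    (h : Ideal.Quotient.mk (Nul κ R) f = Ideal.Quotient.mk (Nul κ R) g) (S : Finset κ) :
    co S f = co S g := by
  have h1 := (Ideal.Quotient.eq.1 h) S
  rwa [map_sub, sub_eq_zero] at h1

omit [DecidableEq κ] in
theorem wt_one (S : Finset κ) : wt (fun _ => 1) S = S.card := by simp [wt]

theorem nul_of_fil [Fintype κ] {f : MvPolynomial κ R} {r : ℕ} (h : Fil (fun _ => 1) r f)
    (hr : Fintype.card κ < r) : f ∈ Nul κ R := by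
  intro S
  by_contra h1
  have h2 := h S h1
  rw [wt_one] at h2
  have h3 := card_le_univ S
  omega

/-- the permanent as a coefficient -/
theorem co_per {n : ℕ} (M : Matrix (Fin n) (Fin n) R) :
    co univ (∏ i, (1 + lf univ fun v => M v i)) = M.permanent := by
  rw [prod_one_add, map_sum, sum_eq_single univ]
  · unfold lf
    rw [Fintype.prod_sum, map_sum]
    symm
    refine Fintype.sum_of_injective (fun σ : Equiv.Perm (Fin n) => (σ : Fin n → Fin n))
      (fun σ τ h => Equiv.ext (congrFun h)) _ _ (fun φ h => ?_) fun σ => ?_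
    · rw [prod_mul_distrib, ← map_prod, co_C_mul]
      have h1 : ¬ Function.Surjective φ := fun h1 =>
        h ⟨Equiv.ofBijective φ (Finite.surjective_iff_bijective.1 h1), rfl⟩
      obtain ⟨v, hv⟩ := not_forall.1 h1
      have h2 : Fil (fun w => if w = v then -1 else 0) (∑ _i : Fin n, (0 : ℤ))
          (∏ i, (X (φ i) : MvPolynomial (Fin n) R)) := by
        refine Fil.prod _ fun i _ => ?_
        have h3 := Fil.lf (R := R) (ω := fun w => if w = v then -1 else 0) (δ := 0) (D := {φ i})
          (fun _ => 1) (fun w hw => by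
            rw [mem_singleton.1 hw, if_neg fun h4 => hv ⟨i, h4⟩])
        simpa [lf] using h3
      have h4 : co univ (∏ i, (X (φ i) : MvPolynomial (Fin n) R)) = 0 := by
        by_contra h5
        have h6 := h2 _ h5
        simp [wt] at h6
      rw [h4, mul_zero]
    · rw [prod_mul_distrib, ← map_prod, co_C_mul,
        Equiv.prod_comp σ fun v => (X v : MvPolynomial (Fin n) R)]
      have h1 : ∏ v : Fin n, (X v : MvPolynomial (Fin n) R) = monomial (ind univ) 1 := by
        rw [ind, monomial_sum_one]
        rfl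
      rw [h1, co_apply, coeff_monomial, if_pos rfl, mul_one]
  · intro t _ ht
    by_contra h1
    have h2 := Fil.prod (R := R) (ω := fun _ => -1) t (d := fun _ => -1)
      (F := fun i => lf univ fun v => M v i) (fun i _ => Fil.lf _ fun _ _ => le_rfl) _ h1
    have h3 := card_lt_card (lt_of_le_of_ne (subset_univ t) ht)
    simp only [wt, sum_const, smul_neg, nsmul_eq_mul, mul_one] at h2
    omega
  · intro h
    exact absurd (mem_powerset_self _) h

end Pool.Agent.Lib.MP_8b1d3b_lc.Gr
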