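import Pool.Agent.Lib.MP_8b1d3b_lc.Gr.Main

set_option autoImplicit false

/-- For all large `n` the generic `n × n` permanent has a skew straight-line program with
at most `1.998 ^ n` steps, over every commutative ring. -/
theorem Pool.Agent.Lib.MP_8b1d3b_lc.Gr.belowRyser : ∃ n₀ : ℕ,
    ∀ (K : Type*) [CommRing K], ∀ n : ℕ, n₀ ≤ n →
      ∃ (m : ℕ) (g : Fin (m + 1) → MvPolynomial (Fin n × Fin n) K),
        ((m + 1 : ℕ) : ℝ) ≤ (999 / 500 : ℝ) ^ n ∧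
        (∀ i : Fin (m + 1),
          (∃ v : Fin n × Fin n, g i = MvPolynomial.X v) ∨
          (∃ c : K, g i = MvPolynomial.C c) ∨
          (∃ a b : Fin (m + 1), a < i ∧ b < i ∧ g i = g a + g b) ∨
          ∃ a : Fin (m + 1), a < i ∧
            ((∃ v : Fin n × Fin n, g i = g a * MvPolynomial.X v) ∨
              ∃ c : K, g i = g a * MvPolynomial.C c)) ∧
        g (Fin.last m) =
          Matrix.permanent (Matrix.of fun i j : Fin n =>
            (MvPolynomial.X (i, j) : MvPolynomial (Fin n × Fin n) K)) := by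
  obtain ⟨n₀, h⟩ := Pool.Agent.Lib.MP_8b1d3b_lc.Gr.main
  refine ⟨n₀, fun K _ n hn => ?_⟩
  obtain ⟨c, h1, h2⟩ := h n hn (MvPolynomial (Fin n × Fin n) K)
    {x | (∃ v, x = MvPolynomial.X v) ∨ ∃ c : K, x = MvPolynomial.C c}
    (fun z => Or.inr ⟨z, (map_intCast _ z).symm⟩)
    (Matrix.of fun i j : Fin n => MvPolynomial.X (i, j)) fun v i => Or.inl ⟨(v, i), rfl⟩
  obtain ⟨m, g, h3, h4, h5⟩ := h2.last
  refine ⟨m, g, le_trans (by exact_mod_cast h3) h1, fun i => ?_, h5⟩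
  rcases h4 i with (h6 | h6) | h6 | ⟨a, ha, z, ⟨v, rfl⟩ | ⟨c, rfl⟩, h6⟩
  · exact Or.inl h6
  · exact Or.inr (Or.inl h6)
  · exact Or.inr (Or.inr (Or.inl h6))
  · exact Or.inr (Or.inr (Or.inr ⟨a, ha, Or.inl ⟨v, h6⟩⟩))
  · exact Or.inr (Or.inr (Or.inr ⟨a, ha, Or.inr ⟨c, h6⟩⟩))
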