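import Pool.Agent.Lib.MP_8b1d3b_lc.Gr.Det
import Pool.Agent.Lib.MP_8b1d3b_lc.Gr.BelowRyserKept

/-! A check: the determinantal complexity of the permanent is at most `1.998 ^ n`. -/

set_option autoImplicit false

namespace Pool.Agent.Lib.MP_8b1d3b_lc.Gr

open MvPolynomial

theorem dc_per : ∃ n₀ : ℕ, ∀ (K : Type*) [CommRing K], ∀ n : ℕ, n₀ ≤ n →
    ∃ (N : ℕ) (A : Matrix (Fin N) (Fin N) (MvPolynomial (Fin n × Fin n) K)),
      (N : ℝ) ≤ (999 / 500 : ℝ) ^ n ∧ (∀ i j, (A i j).totalDegree ≤ 1) ∧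
      A.det = Matrix.permanent (Matrix.of fun i j : Fin n =>
        (X (i, j) : MvPolynomial (Fin n × Fin n) K)) := by
  obtain ⟨n₀, h⟩ := belowRyser
  exact ⟨n₀, fun K _ n hn => dc_of_skew (h K n hn)⟩

end Pool.Agent.Lib.MP_8b1d3b_lc.Gr
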