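import Mathlib

/-! A cost calculus for skew straight-line programs. -/

set_option autoImplicit false

namespace Pool.Agent.Lib.MP_8b1d3b_lc.Gr

open Finset

variable {R : Type*} [CommRing R] {At : Set R}

/-- The first `n` values of `g` form a skew program with atoms `At`. -/
def Val (At : Set R) (g : ℕ → R) (n : ℕ) : Prop :=
  ∀ i < n, g i ∈ At ∨ ∃ a < i, (∃ b < i, g i = g a + g b) ∨ ∃ z ∈ At, g i = g a * z

/-- Some skew program with at most `c` steps computes all elements of `T`. -/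
def Sk (At T : Set R) (c : ℕ) : Prop :=
  ∃ (g : ℕ → R) (n : ℕ), n ≤ c ∧ Val At g n ∧ ∀ x ∈ T, ∃ i < n, g i = x

/-- Given `A`, at most `c` further steps compute all elements of `B`. -/
def Reach (At A : Set R) (c : ℕ) (B : Set R) : Prop :=
  ∀ (T : Set R) (k : ℕ), A ⊆ T → Sk At T k → Sk At (T ∪ B) (k + c)

theorem Sk.mono {T T' : Set R} {c c' : ℕ} (h : Sk At T c) (hT : T' ⊆ T) (hc : c ≤ c') :
    Sk At T' c' := by
  obtain ⟨g, n, h1, h2, h3⟩ := h
  exact ⟨g, n, h1.trans hc, h2, fun x hx => h3 x (hT hx)⟩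

theorem Val.snoc {g : ℕ → R} {n : ℕ} (h : Val At g n) {x : R}
    (hx : x ∈ At ∨ ∃ a < n, (∃ b < n, x = g a + g b) ∨ ∃ z ∈ At, x = g a * z) :
    Val At (Function.update g n x) (n + 1) := by
  intro i hi
  rcases (Nat.lt_succ_iff.1 hi).lt_or_eq with hi | rfl
  · rw [Function.update_of_ne hi.ne]
    refine (h i hi).imp id ?_
    rintro ⟨a, ha, ⟨b, hb, h1⟩ | ⟨z, hz, h1⟩⟩
    · refine ⟨a, ha, Or.inl ⟨b, hb, ?_⟩⟩
      rwa [Function.update_of_ne (ha.trans hi).ne, Function.update_of_ne (hb.trans hi).ne]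
    · refine ⟨a, ha, Or.inr ⟨z, hz, ?_⟩⟩
      rwa [Function.update_of_ne (ha.trans hi).ne]
  · rw [Function.update_self]
    refine hx.imp id ?_
    rintro ⟨a, ha, ⟨b, hb, h1⟩ | ⟨z, hz, h1⟩⟩
    · refine ⟨a, ha, Or.inl ⟨b, hb, ?_⟩⟩
      rwa [Function.update_of_ne ha.ne, Function.update_of_ne hb.ne]
    · refine ⟨a, ha, Or.inr ⟨z, hz, ?_⟩⟩
      rwa [Function.update_of_ne ha.ne]

theorem Sk.step {T : Set R} {k : ℕ} (h : Sk At T k) {x : R}
    (hx : x ∈ At ∨ ∃ a ∈ T, (∃ b ∈ T, x = a + b) ∨ ∃ z ∈ At, x = a * z) :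
    Sk At (T ∪ {x}) (k + 1) := by
  obtain ⟨g, n, h1, h2, h3⟩ := h
  refine ⟨Function.update g n x, n + 1, by omega, h2.snoc (hx.imp id ?_), ?_⟩
  · rintro ⟨a, ha, ⟨b, hb, h4⟩ | ⟨z, hz, h4⟩⟩
    · obtain ⟨i, hi, rfl⟩ := h3 a ha
      obtain ⟨j, hj, rfl⟩ := h3 b hb
      exact ⟨i, hi, Or.inl ⟨j, hj, h4⟩⟩
    · obtain ⟨i, hi, rfl⟩ := h3 a ha
      exact ⟨i, hi, Or.inr ⟨z, hz, h4⟩⟩
  · rintro y (hy | rfl)
    · obtain ⟨i, hi, rfl⟩ := h3 y hy
      exact ⟨i, by omega, Function.update_of_ne hi.ne _ _⟩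
    · exact ⟨n, by omega, Function.update_self _ _ _⟩

/-- A computed element can be made the last step. -/
theorem Sk.last {x : R} {c : ℕ} (h : Sk At {x} c) :
    ∃ (m : ℕ) (g : Fin (m + 1) → R), m + 1 ≤ c ∧
      (∀ i : Fin (m + 1), g i ∈ At ∨
        (∃ a b : Fin (m + 1), a < i ∧ b < i ∧ g i = g a + g b) ∨
        ∃ a : Fin (m + 1), a < i ∧ ∃ z ∈ At, g i = g a * z) ∧
      g (Fin.last m) = x := by
  obtain ⟨g, n, h1, h2, h3⟩ := h
  obtain ⟨m, hm, h4⟩ := h3 x rfl
  refine ⟨m, fun i => g i, by omega, fun i => (h2 i (by omega)).imp id ?_, h4⟩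
  rintro ⟨a, ha, ⟨b, hb, h5⟩ | ⟨z, hz, h5⟩⟩
  · exact Or.inl ⟨⟨a, by omega⟩, ⟨b, by omega⟩, ha, hb, h5⟩
  · exact Or.inr ⟨⟨a, by omega⟩, ha, z, hz, h5⟩

namespace Reach

variable {A A' B B' D : Set R} {c c' : ℕ} {x y : R}

theorem st (h : Reach At ∅ c B) : Sk At B c := by
  have h1 := h ∅ 0 subset_rfl ⟨fun _ => 0, 0, le_rfl, fun i hi => absurd hi (by omega),
    fun x hx => absurd hx (Set.notMem_empty x)⟩
  rwa [Set.empty_union, zero_add] at h1

theorem mono (h : Reach At A c B) (hA : A ⊆ A') (hc : c ≤ c') (hB : B' ⊆ B) :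
    Reach At A' c' B' := fun T k hT hk =>
  (h T k (hA.trans hT) hk).mono (Set.union_subset_union_right _ hB) (by omega)

theorem le (h : Reach At A c B) (hc : c ≤ c') : Reach At A c' B :=
  h.mono subset_rfl hc subset_rfl

theorem of_subset (h : B ⊆ A) : Reach At A 0 B := fun _ _ hT hk =>
  hk.mono (Set.union_subset subset_rfl (h.trans hT)) le_rfl

theorem of_mem (h : x ∈ A) : Reach At A 0 {x} := of_subset (Set.singleton_subset_iff.2 h)

theorem seq (h : Reach At A c B) (h' : Reach At (A ∪ B) c' D) : Reach At A (c + c') (B ∪ D) := by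
  intro T k hT hk
  have h1 := h' _ _ (Set.union_subset_union_left _ hT) (h T k hT hk)
  rwa [Set.union_assoc, add_assoc] at h1

theorem trans (h : Reach At A c B) (h' : Reach At B c' D) : Reach At A (c + c') D :=
  (h.seq (h'.mono Set.subset_union_right le_rfl subset_rfl)).mono subset_rfl le_rfl
    Set.subset_union_right

theorem union (h : Reach At A c B) (h' : Reach At A c' D) : Reach At A (c + c') (B ∪ D) :=
  h.seq (h'.mono Set.subset_union_left le_rfl subset_rfl)

theorem atom (h : x ∈ At) : Reach At A 1 {x} := fun _ _ _ hk => hk.step (Or.inl h)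

theorem add (h : Reach At A c {x}) (h' : Reach At A c' {y}) : Reach At A (c + c' + 1) {x + y} :=
  (h.union h').trans fun _ _ hT hk =>
    hk.step (Or.inr ⟨x, hT (Or.inl rfl), Or.inl ⟨y, hT (Or.inr rfl), rfl⟩⟩)

theorem mul (h : Reach At A c {x}) (hy : y ∈ At) : Reach At A (c + 1) {x * y} :=
  h.trans fun _ _ hT hk => hk.step (Or.inr ⟨x, hT rfl, Or.inr ⟨y, hy, rfl⟩⟩)

theorem biUnion {ι : Type*} (s : Finset ι) {F : ι → Set R} (h : ∀ i ∈ s, Reach At A c (F i)) :
    Reach At A (s.card * c) (⋃ i ∈ s, F i) := by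
  classical
  induction s using Finset.induction_on with
  | empty => simpa using of_subset (Set.empty_subset A)
  | insert a s ha ih =>
    rw [Finset.set_biUnion_insert, card_insert_of_notMem ha, add_mul, one_mul, add_comm]
    exact (h a (mem_insert_self _ _)).union (ih fun i hi => h i (mem_insert_of_mem hi))

theorem image {ι : Type*} (s : Finset ι) {f : ι → R} (h : ∀ i ∈ s, Reach At A c {f i}) :
    Reach At A (s.card * c) (f '' (s : Set ι)) :=
  (biUnion s h).mono subset_rfl le_rfl (by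
    rintro _ ⟨i, hi, rfl⟩
    exact Set.mem_iUnion₂.2 ⟨i, hi, rfl⟩)

theorem sum (h0 : (0 : R) ∈ At) {ι : Type*} (s : Finset ι) {f : ι → R}
    (h : ∀ i ∈ s, Reach At A c {f i}) : Reach At A (s.card * (c + 1) + 1) {∑ i ∈ s, f i} := by
  classical
  induction s using Finset.induction_on with
  | empty => simpa using atom h0
  | insert a s ha ih =>
    rw [sum_insert ha, card_insert_of_notMem ha]
    exact ((h a (mem_insert_self _ _)).add (ih fun i hi => h i (mem_insert_of_mem hi))).le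
      (le_of_eq (by ring))

/-- an element that is available or zero costs at most one step -/
theorem of_or (h0 : (0 : R) ∈ At) (h : x ∈ A ∨ x = 0) : Reach At A 1 {x} := by
  rcases h with h | rfl
  · exact (of_mem h).le (by omega)
  · exact atom h0

/-- iteration along a chain -/
theorem chain (F : ℕ → Set R) (n : ℕ) (h : ∀ j < n, Reach At (F j) c (F (j + 1))) :
    Reach At (F 0) (n * c) (F n) := by
  induction n with
  | zero => simpa using of_subset (subset_refl (F 0))
  | succ n ih =>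
    rw [add_mul, one_mul]
    exact (ih fun j hj => h j (by omega)).trans (h n (by omega))

/-- iteration over a finite set -/
theorem fold {ι : Type*} [DecidableEq ι] (F : Finset ι → Set R) (s : Finset ι)
    (h : ∀ (t : Finset ι) (i : ι), i ∉ t → Reach At (F t) c (F (insert i t))) :
    Reach At (F ∅) (s.card * c) (F s) := by
  induction s using Finset.induction_on with
  | empty => simpa using of_subset (subset_refl (F ∅))
  | insert a s ha ih =>
    rw [card_insert_of_notMem ha, add_mul, one_mul]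
    exact ih.trans (h s a ha)

end Reach

end Pool.Agent.Lib.MP_8b1d3b_lc.Gr
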