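import Mathlib

set_option autoImplicit false

namespace Pool.Agent.Lib.MP_8b1d3b_lc.Gr

open Finset

/-- the weight of a set of columns -/
def wt {C : Type} (ω : C → ℤ) (S : Finset C) : ℤ := ∑ v ∈ S, ω v

/-- the sets of columns of weight at least `δ` -/
def Gd {C : Type} [Fintype C] [DecidableEq C] (ω : C → ℤ) (δ : ℤ) : Finset (Finset C) :=
  univ.filter fun S => δ ≤ wt ω S

/-- slope weights: `-36` on the first `n / 50` columns, `1` on the others -/
def ωB (n : ℕ) (v : Fin n) : ℤ := if v.val < n / 50 then -36 else 1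

/-- `-1` on the first `n / 50` columns, `0` on the others -/
def ωM (n : ℕ) (v : Fin n) : ℤ := if v.val < n / 50 then -1 else 0

/-- states of part C after the columns in `D` have been read -/
def St (n : ℕ) (D : Finset (Fin n)) : Finset (Finset (Fin n) × (Fin n → ℕ)) :=
  (Dᶜ.powerset ×ˢ Fintype.piFinset fun _ : Fin n => range (n + 1)).filter fun z =>
    z.1.card + 37 * (n / 50) ≤ n ∧ ∑ i, z.2 i ≤ D.card ∧
      (univ.filter fun i => z.2 i ≠ 0).card ≤ n / 50

end Pool.Agent.Lib.MP_8b1d3b_lc.Gr
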