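import Mathlib

/-! Skew programs give determinantal expressions. -/

set_option autoImplicit false

namespace Pool.Agent.Lib.MP_8b1d3b_lc.Gr

open Finset MvPolynomial

theorem det_tri {R : Type*} [CommRing R] {m : ℕ} (N : Matrix (Fin (m + 1)) (Fin (m + 1)) R)
    (hN : ∀ i j, i ≤ j → N i j = 0) (g c : Fin (m + 1) → R)
    (h : ∀ i, g i = c i + ∑ j, N i j * g j) :
    ((1 - N).updateCol (Fin.last m) c).det = g (Fin.last m) := by
  have hd : (1 - N).det = 1 := by
    rw [Matrix.det_of_isLowerTriangular]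
    · refine prod_eq_one fun i _ => ?_
      rw [Matrix.sub_apply, hN i i le_rfl, Matrix.one_apply_eq, sub_zero]
    · intro i j hij
      have h1 : i < j := hij
      rw [Matrix.sub_apply, hN i j h1.le, Matrix.one_apply_ne h1.ne, sub_zero]
  have hc : c = (1 - N).mulVec g := by
    funext i
    rw [Matrix.sub_mulVec, Matrix.one_mulVec, Pi.sub_apply, h i]
    simp [Matrix.mulVec, dotProduct]
  rw [← Matrix.cramer_apply, Matrix.cramer_eq_adjugate_mulVec, hc, Matrix.mulVec_mulVec,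
    Matrix.adjugate_mul, hd, one_smul, Matrix.one_mulVec]

/-- A skew program with `m + 1` steps is a determinant of size `m + 1`. -/
theorem det_of_skew {σ K : Type*} [CommRing K] {m : ℕ} (g : Fin (m + 1) → MvPolynomial σ K)
    (hg : ∀ i : Fin (m + 1), (∃ v : σ, g i = X v) ∨ (∃ c : K, g i = C c) ∨
      (∃ a b : Fin (m + 1), a < i ∧ b < i ∧ g i = g a + g b) ∨
      ∃ a : Fin (m + 1), a < i ∧ ((∃ v : σ, g i = g a * X v) ∨ ∃ c : K, g i = g a * C c)) :
    ∃ A : Matrix (Fin (m + 1)) (Fin (m + 1)) (MvPolynomial σ K),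
      (∀ i j, (A i j).totalDegree ≤ 1) ∧ A.det = g (Fin.last m) := by
  set S := restrictTotalDegree σ K 1 with hS
  have hC : ∀ c : K, (C c : MvPolynomial σ K) ∈ S := fun c =>
    (mem_restrictTotalDegree _ _ _).2 (by rw [totalDegree_C]; exact Nat.zero_le _)
  have h1 : (1 : MvPolynomial σ K) ∈ S := by simpa using hC 1
  have hX : ∀ v : σ, (X v : MvPolynomial σ K) ∈ S := fun v =>
    (mem_restrictTotalDegree _ _ _).2 ((totalDegree_monomial_le _ _).trans (by simp))
  have hs : ∀ (a j : Fin (m + 1)) (x : MvPolynomial σ K), x ∈ S →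
      (Pi.single a x : Fin (m + 1) → MvPolynomial σ K) j ∈ S := fun a j x hx => by
    rw [Pi.single_apply]
    split_ifs
    · exact hx
    · exact S.zero_mem
  have hz : ∀ (a i j : Fin (m + 1)) (x : MvPolynomial σ K), a < i → i ≤ j →
      (Pi.single a x : Fin (m + 1) → MvPolynomial σ K) j = 0 := fun a i j x ha hj => by
    rw [Pi.single_apply, if_neg (ha.trans_le hj).ne']
  have hm : ∀ (a : Fin (m + 1)) (x : MvPolynomial σ K),
      ∑ j, (Pi.single a x : Fin (m + 1) → MvPolynomial σ K) j * g j = x * g a := fun a x => by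
    simp [Pi.single_apply]
  have key : ∀ i : Fin (m + 1), ∃ (c : MvPolynomial σ K) (r : Fin (m + 1) → MvPolynomial σ K),
      c ∈ S ∧ (∀ j, r j ∈ S) ∧ (∀ j, i ≤ j → r j = 0) ∧ g i = c + ∑ j, r j * g j := by
    intro i
    rcases hg i with ⟨v, h⟩ | ⟨c, h⟩ | ⟨a, b, ha, hb, h⟩ | ⟨a, ha, ⟨v, h⟩ | ⟨c, h⟩⟩
    · exact ⟨X v, 0, hX v, fun _ => S.zero_mem, fun _ _ => rfl, by simp [h]⟩
    · exact ⟨C c, 0, hC c, fun _ => S.zero_mem, fun _ _ => rfl, by simp [h]⟩
    · refine ⟨0, Pi.single a 1 + Pi.single b 1, S.zero_mem,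
        fun j => S.add_mem (hs a j 1 h1) (hs b j 1 h1), fun j hj => ?_, ?_⟩
      · rw [Pi.add_apply, hz a i j 1 ha hj, hz b i j 1 hb hj, add_zero]
      · simp only [Pi.add_apply, add_mul, sum_add_distrib, hm, one_mul, zero_add, h]
    · exact ⟨0, Pi.single a (X v), S.zero_mem, fun j => hs a j _ (hX v),
        fun j hj => hz a i j _ ha hj, by rw [hm, zero_add, h, mul_comm]⟩
    · exact ⟨0, Pi.single a (C c), S.zero_mem, fun j => hs a j _ (hC c),
        fun j hj => hz a i j _ ha hj, by rw [hm, zero_add, h, mul_comm]⟩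
  choose c r hc hr h0 he using key
  refine ⟨(1 - Matrix.of r).updateCol (Fin.last m) c, fun i j => ?_,
    det_tri (Matrix.of r) h0 g c he⟩
  refine (mem_restrictTotalDegree _ _ _).1 (show _ ∈ S from ?_)
  rw [Matrix.updateCol_apply]
  split_ifs
  · exact hc i
  · refine S.sub_mem ?_ (hr i j)
    rw [Matrix.one_apply]
    split_ifs
    · exact h1
    · exact S.zero_mem

/-- The bound for skew programs gives the same bound for determinantal expressions. -/
theorem dc_of_skew {K : Type*} [CommRing K] {n : ℕ} {B : ℝ}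
    (h : ∃ (m : ℕ) (g : Fin (m + 1) → MvPolynomial (Fin n × Fin n) K),
      ((m + 1 : ℕ) : ℝ) ≤ B ∧
      (∀ i : Fin (m + 1), (∃ v : Fin n × Fin n, g i = X v) ∨ (∃ c : K, g i = C c) ∨
        (∃ a b : Fin (m + 1), a < i ∧ b < i ∧ g i = g a + g b) ∨
        ∃ a : Fin (m + 1), a < i ∧
          ((∃ v : Fin n × Fin n, g i = g a * X v) ∨ ∃ c : K, g i = g a * C c)) ∧
      g (Fin.last m) = Matrix.permanent (Matrix.of fun i j : Fin n =>
        (X (i, j) : MvPolynomial (Fin n × Fin n) K))) :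
    ∃ (N : ℕ) (A : Matrix (Fin N) (Fin N) (MvPolynomial (Fin n × Fin n) K)),
      (N : ℝ) ≤ B ∧ (∀ i j, (A i j).totalDegree ≤ 1) ∧
      A.det = Matrix.permanent (Matrix.of fun i j : Fin n =>
        (X (i, j) : MvPolynomial (Fin n × Fin n) K)) := by
  obtain ⟨m, g, h1, h2, h3⟩ := h
  obtain ⟨A, h4, h5⟩ := det_of_skew g h2
  exact ⟨m + 1, A, h1, h4, h5.trans h3⟩

end Pool.Agent.Lib.MP_8b1d3b_lc.Gr
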