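import Pool.Agent.Lib.MP_8b1d3b_lc.Gr.Defs

set_option autoImplicit false

namespace Pool.Agent.Lib.MP_8b1d3b_lc.Gr

open Finset

theorem num_zpow {C : Type} [DecidableEq C] (ω : C → ℤ) {lam : ℝ} (h : lam ≠ 0) (S : Finset C) :
    lam ^ wt ω S = ∏ v ∈ S, lam ^ ω v := by
  unfold wt
  induction S using Finset.induction_on with
  | empty => simp
  | insert a s ha ih => rw [sum_insert ha, prod_insert ha, zpow_add₀ h, ih]

theorem cnt_wt {C : Type} [Fintype C] [DecidableEq C] (ω : C → ℤ) (δ : ℤ) (lam : ℝ) (h : 1 ≤ lam) :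
    ((Gd ω δ).card : ℝ) ≤ lam ^ (-δ) * ∏ v, (1 + lam ^ ω v) := by
  have h0 : 0 < lam := by linarith
  rw [Finset.prod_one_add, powerset_univ, mul_sum, card_eq_sum_ones]
  push_cast
  refine le_trans (sum_le_sum fun S hS => ?_) (sum_le_sum_of_subset_of_nonneg (subset_univ _)
    fun S _ _ => mul_nonneg (zpow_pos h0 _).le (prod_nonneg fun v _ => (zpow_pos h0 _).le))
  rw [← num_zpow ω h0.ne', ← zpow_add₀ h0.ne']
  refine one_le_zpow₀ h ?_
  have := (mem_filter.1 hS).2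
  omega

theorem num_prod (n m : ℕ) (hm : m ≤ n) (A B : ℝ) :
    ∏ v : Fin n, (if v.val < m then A else B) = A ^ m * B ^ (n - m) := by
  rw [Fin.prod_univ_eq_prod_range (fun i => if i < m then A else B) n,
    ← prod_range_mul_prod_Ico _ hm, prod_congr rfl fun i hi => if_pos (mem_range.1 hi),
    prod_congr rfl fun i hi => if_neg (not_lt.2 (mem_Ico.1 hi).1), prod_const, prod_const,
    card_range, Nat.card_Ico]

theorem num_fin {A B K q : ℝ} (hA : 0 ≤ A) (hB : 0 ≤ B) (hK : 1 ≤ K) (hBK : B ≤ K) (hq : 1 ≤ q)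
    (h : A ≤ q ^ 50) (n : ℕ) : A ^ (n / 50) * B ^ (n % 50) ≤ K ^ 49 * q ^ n := by
  have h1 : A ^ (n / 50) ≤ q ^ n :=
    (pow_le_pow_left₀ hA h _).trans (by
      rw [← pow_mul]
      exact pow_le_pow_right₀ hq (by omega))
  have h2 : B ^ (n % 50) ≤ K ^ 49 :=
    (pow_le_pow_left₀ hB hBK _).trans (pow_le_pow_right₀ hK (by omega))
  rw [mul_comm]
  exact mul_le_mul h2 h1 (pow_nonneg hA _) (by positivity)

theorem num_split (A B : ℝ) (n : ℕ) :
    A ^ (n / 50) * B ^ (n - n / 50) = (A * B ^ 49) ^ (n / 50) * B ^ (n % 50) := by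
  rw [show n - n / 50 = 49 * (n / 50) + n % 50 by omega, pow_add, pow_mul, mul_pow, mul_assoc]

theorem cntB : ∃ c : ℝ, ∀ n : ℕ,
    ((Gd (ωB n) (wt (ωB n) univ)).card : ℝ) ≤ c * (799 / 400) ^ n := by
  refine ⟨2 ^ 49, fun n => (cnt_wt _ _ (51 / 50) (by norm_num)).trans ?_⟩
  have h1 : (51 / 50 : ℝ) ^ (-wt (ωB n) univ) * ∏ v, (1 + (51 / 50 : ℝ) ^ ωB n v) =
      ∏ v : Fin n, (if v.val < n / 50 then (1 + (51 / 50 : ℝ) ^ 36) else 101 / 51) := by
    rw [zpow_neg, num_zpow _ (by norm_num), ← prod_inv_distrib, ← prod_mul_distrib]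
    refine prod_congr rfl fun v _ => ?_
    unfold ωB
    split_ifs
    · norm_num
    · norm_num
  rw [h1, num_prod n _ (Nat.div_le_self _ _), num_split]
  exact num_fin (by positivity) (by norm_num) (by norm_num) (by norm_num) (by norm_num)
    (by norm_num) n

theorem cntM : ∃ c : ℝ, ∀ n : ℕ, ((Gd (ωM n) 0).card : ℝ) ≤ c * (799 / 400) ^ n := by
  refine ⟨2 ^ 49, fun n => (cnt_wt _ _ 1000 (by norm_num)).trans ?_⟩
  have h1 : (1000 : ℝ) ^ (-(0 : ℤ)) * ∏ v, (1 + (1000 : ℝ) ^ ωM n v) =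
      ∏ v : Fin n, (if v.val < n / 50 then (1001 / 1000 : ℝ) else 2) := by
    rw [neg_zero, zpow_zero, one_mul]
    refine prod_congr rfl fun v _ => ?_
    unfold ωM
    split_ifs
    · norm_num
    · norm_num
  rw [h1, num_prod n _ (Nat.div_le_self _ _), num_split]
  exact num_fin (by positivity) (by norm_num) (by norm_num) (by norm_num) (by norm_num)
    (by norm_num) n

/-- local weight of a multiplicity -/
noncomputable def num_ph (s : ℕ) : ℝ := (if s ≠ 0 then 1 / 120 else 1) * (5 / 7) ^ s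

theorem num_ph_pos (s : ℕ) : 0 < num_ph s := by
  unfold num_ph
  split_ifs
  · positivity
  · positivity

theorem num_ph_sum (n : ℕ) : ∑ s ∈ range (n + 1), num_ph s + 1 / 48 * (5 / 7) ^ n = 49 / 48 := by
  induction n with
  | zero =>
    simp only [zero_add, range_one, sum_singleton, num_ph]
    norm_num
  | succ n ih =>
    rw [sum_range_succ, ← ih]
    unfold num_ph
    rw [if_pos (Nat.succ_ne_zero n)]
    ring

theorem cntC : ∃ c : ℝ, ∀ (n : ℕ) (D : Finset (Fin n)),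
    ((St n D).card : ℝ) ≤ c * (799 / 400) ^ n := by
  refine ⟨4 ^ 49, fun n D => ?_⟩
  have hD : D.card ≤ n := (card_le_univ D).trans_eq (Fintype.card_fin n)
  set W : ℝ := (2 / 5) ^ (n - 37 * (n / 50)) * ((1 / 120) ^ (n / 50) * (5 / 7) ^ D.card) with hW
  have hW0 : 0 < W := by positivity
  have h1 : ((St n D).card : ℝ) * W ≤
      ∑ z ∈ Dᶜ.powerset ×ˢ Fintype.piFinset fun _ : Fin n => range (n + 1),
        (2 / 5 : ℝ) ^ z.1.card * ∏ i, num_ph (z.2 i) := by
    rw [← nsmul_eq_mul, ← sum_const]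
    refine le_trans (sum_le_sum fun z hz => ?_) (sum_le_sum_of_subset_of_nonneg
      (filter_subset _ _) fun z _ _ => mul_nonneg (by positivity)
        (prod_nonneg fun i _ => (num_ph_pos _).le))
    obtain ⟨ha, hb, hc⟩ := (mem_filter.1 hz).2
    have e : ∏ i, num_ph (z.2 i) =
        (1 / 120) ^ (univ.filter fun i => z.2 i ≠ 0).card * (5 / 7) ^ ∑ i, z.2 i := by
      unfold num_ph
      rw [prod_mul_distrib, prod_pow_eq_pow_sum, ← prod_filter, prod_const]
    rw [e]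
    exact mul_le_mul (pow_le_pow_of_le_one (by norm_num) (by norm_num) (by omega))
      (mul_le_mul (pow_le_pow_of_le_one (by norm_num) (by norm_num) hc)
        (pow_le_pow_of_le_one (by norm_num) (by norm_num) hb) (by positivity) (by positivity))
      (by positivity) (by positivity)
  have h2 : ∑ Z ∈ Dᶜ.powerset, (2 / 5 : ℝ) ^ Z.card = (7 / 5) ^ (n - D.card) := by
    have h := Finset.prod_one_add (f := fun _ : Fin n => (2 / 5 : ℝ)) Dᶜ
    simp only [prod_const] at h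
    rw [← h, card_compl, Fintype.card_fin]
    norm_num
  have h3 : ∑ o ∈ Fintype.piFinset fun _ : Fin n => range (n + 1), ∏ i, num_ph (o i) ≤
      (49 / 48) ^ n := by
    rw [← prod_univ_sum, prod_const, card_univ, Fintype.card_fin]
    refine pow_le_pow_left₀ (sum_nonneg fun s _ => (num_ph_pos s).le) ?_ n
    have h := num_ph_sum n
    have : (0 : ℝ) ≤ 1 / 48 * (5 / 7) ^ n := by positivity
    linarith
  rw [sum_product] at h1
  dsimp only at h1
  rw [← sum_mul_sum, h2] at h1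
  have h4 := h1.trans (mul_le_mul_of_nonneg_left h3 (by positivity))
  refine le_trans ?_ (num_fin (A := (5 / 2) ^ 13 * 120 * (343 / 240) ^ 50)
    (B := 5 / 2 * (343 / 240)) (by positivity) (by norm_num) (by norm_num) (by norm_num)
    (by norm_num) (by norm_num) n)
  refine le_of_mul_le_mul_right (h4.trans (le_of_eq ?_)) hW0
  obtain ⟨m, hm⟩ : ∃ m, m = n / 50 := ⟨_, rfl⟩
  obtain ⟨e, he⟩ : ∃ e, e = n % 50 := ⟨_, rfl⟩
  obtain ⟨u, hu⟩ : ∃ u, u = n - D.card := ⟨_, rfl⟩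
  have e1 : (343 / 240 : ℝ) ^ n = (7 / 5) ^ u * (7 / 5) ^ D.card * (49 / 48) ^ n := by
    rw [← pow_add, show u + D.card = n by omega, ← mul_pow]
    norm_num
  have e2 : (343 / 240 : ℝ) ^ n = ((343 / 240) ^ 50) ^ m * (343 / 240) ^ e := by
    rw [← pow_mul, ← pow_add, show 50 * m + e = n by omega]
  have e3 : (2 / 5 : ℝ) ^ (n - 37 * m) * (((5 / 2) ^ 13) ^ m * (5 / 2) ^ e) = 1 := by
    rw [← pow_mul, ← pow_add, show 13 * m + e = n - 37 * m by omega, ← mul_pow]
    norm_num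
  have e4 : (1 / 120 : ℝ) ^ m * 120 ^ m = 1 := by
    rw [← mul_pow]
    norm_num
  have e5 : (5 / 7 : ℝ) ^ D.card * (7 / 5) ^ D.card = 1 := by
    rw [← mul_pow]
    norm_num
  rw [hW, ← hm, ← he, ← hu, mul_pow, mul_pow, mul_pow]
  generalize ((343 / 240 : ℝ) ^ 50) ^ m = a1 at *
  generalize ((5 / 2 : ℝ) ^ 13) ^ m = a2 at *
  have e6 := e1.symm.trans e2
  calc (7 / 5 : ℝ) ^ u * (49 / 48) ^ n
      = ((7 / 5) ^ u * (7 / 5) ^ D.card * (49 / 48) ^ n) * (5 / 7) ^ D.card * 1 * 1 := by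
        linear_combination (-((7 / 5 : ℝ) ^ u * (49 / 48) ^ n)) * e5
    _ = (a1 * (343 / 240) ^ e) * (5 / 7) ^ D.card *
        ((2 / 5 : ℝ) ^ (n - 37 * m) * (a2 * (5 / 2) ^ e)) * ((1 / 120 : ℝ) ^ m * 120 ^ m) := by
        rw [e6, e3, e4]
    _ = _ := by
        generalize (343 / 240 : ℝ) ^ e = b1
        generalize (5 / 7 : ℝ) ^ D.card = b2
        generalize (2 / 5 : ℝ) ^ (n - 37 * m) = b3
        generalize (5 / 2 : ℝ) ^ e = b4
        generalize (1 / 120 : ℝ) ^ m = b5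
        generalize (120 : ℝ) ^ m = b6
        ring

theorem final (c : ℝ) : ∃ n₀ : ℕ, ∀ n : ℕ, n₀ ≤ n →
    100 * ((n : ℝ) + 1) ^ 5 * (c * (799 / 400) ^ n + 1) ≤ (999 / 500) ^ n := by
  have h1 := tendsto_pow_const_div_const_pow_of_one_lt 5
    (r := (999 / 500 : ℝ) / (799 / 400)) (by norm_num)
  have hc : (0 : ℝ) < 3200 * (|c| + 1) := by positivity
  obtain ⟨n₀, h2⟩ := Filter.eventually_atTop.1 (h1.eventually (gt_mem_nhds (inv_pos.2 hc)))
  refine ⟨max n₀ 1, fun n hn => ?_⟩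
  have h3 := h2 n (le_of_max_le_left hn)
  have hn1 : (1 : ℝ) ≤ n := by exact_mod_cast le_of_max_le_right hn
  have hq : (1 : ℝ) ≤ (799 / 400) ^ n := one_le_pow₀ (by norm_num)
  have hp : (0 : ℝ) < (999 / 500) ^ n := by positivity
  rw [div_pow, div_div_eq_mul_div, div_lt_iff₀ hp, inv_mul_eq_div, lt_div_iff₀ hc] at h3
  have h4 : ((n : ℝ) + 1) ^ 5 ≤ (2 * n) ^ 5 := pow_le_pow_left₀ (by positivity) (by linarith) 5
  have h5 : c * (799 / 400) ^ n + 1 ≤ (|c| + 1) * (799 / 400) ^ n := by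
    have := mul_le_mul_of_nonneg_right (le_abs_self c) (zero_le_one.trans hq)
    linarith
  refine le_trans (mul_le_mul_of_nonneg_left h5 (by positivity)) ?_
  refine le_trans (mul_le_mul_of_nonneg_right (mul_le_mul_of_nonneg_left h4 (by norm_num))
    (by positivity)) (le_trans (le_of_eq ?_) h3.le)
  ring

end Pool.Agent.Lib.MP_8b1d3b_lc.Gr
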