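import Pool.Agent.Lib.MP_8b1d3b_lc.Gr.PartC
import Pool.Agent.Lib.MP_8b1d3b_lc.Gr.Num

/-! Skew programs for the permanent with at most `1.998 ^ n` steps. -/

set_option autoImplicit false

namespace Pool.Agent.Lib.MP_8b1d3b_lc.Gr

open Finset MvPolynomial

variable {R : Type*} [CommRing R] {At : Set R}

theorem reach_per (hZ : ∀ z : ℤ, (z : R) ∈ At) {n : ℕ} (M : Matrix (Fin n) (Fin n) R)
    (hM : ∀ v i, M v i ∈ At) {G : ℕ} (hB : (Gd (ωB n) (wt (ωB n) univ)).card ≤ G)
    (hG : (Gd (ωM n) 0).card ≤ G) (hH : ∀ D, (St n D).card ≤ G) :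
    Reach At ∅ (100 * (n + 1) ^ 5 * (G + 1)) {M.permanent} := by
  have h0 : (0 : R) ∈ At := by simpa using hZ 0
  set W : Finset (Fin n) := univ.filter fun v => v.val < n / 50 with hWd
  set U : Finset (Fin n) := univ.filter fun v => ¬ v.val < n / 50 with hUd
  have hW : ∀ v, v ∈ W ↔ v.val < n / 50 := fun v => by simp [hWd]
  have hU : ∀ v, v ∈ U ↔ ¬ v.val < n / 50 := fun v => by simp [hUd]
  have hWc : W.card = n / 50 := by
    rw [hWd, Fin.card_filter_val_lt]
    omega
  have hUc : W.card + U.card = n := by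
    rw [hWd, hUd, card_filter_add_card_filter_not, card_univ, Fintype.card_fin]
  set X : Fin n → Fin n → R := fun i v => M v i with hX
  have hXA : ∀ i v, X i v ∈ At := fun i v => hM v i
  set F : MvPolynomial (Fin n) R := ∏ i, (1 + lf U (X i)) with hF
  set δ := wt (ωB n) univ with hδ
  have hJ : ∀ i r t, n < r + t → lf U (X i) ^ t * lf W (X i) ^ r ∈ Nul (Fin n) R := by
    intro i r t h
    refine nul_of_fil (r := r + t) ((((Fil.lf (δ := 1) _ fun _ _ => le_rfl).pow t).mul
      ((Fil.lf (δ := 1) _ fun _ _ => le_rfl).pow r)).mono ?_) (by rwa [Fintype.card_fin])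
    push_cast
    omega
  choose c d hc hd hcd using fun i => factor₂ 36 (hJ i)
  obtain ⟨fB, hfB⟩ := exists_lift fun S => if δ ≤ wt (ωB n) S then co S F else 0
  obtain ⟨fC, hfC⟩ := exists_lift fun S => if δ ≤ wt (ωB n) S then 0 else co S F
  have hFM : Fil (ωM n) 0 F := by
    have h1 := Fil.prod (R := R) (ω := ωM n) univ (d := fun _ => 0)
      (F := fun i => 1 + lf U (X i)) fun i _ => Fil.one.add (Fil.lf _ fun v hv => by
        simp [ωM, (hU v).1 hv])
    simpa using h1
  have hFV : ∀ S, co S F ∈ V (ωM n) 0 F ∨ co S F = 0 := fun S => by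
    by_cases h : co S F = 0
    · exact Or.inr h
    · exact Or.inl (mem_V (hFM S h))
  -- the decomposition
  have hper : M.permanent =
      co univ (fB * ∏ i, (pol (lf W (X i)) (lf U (X i)) n (c i) *
        pol (lf W (X i)) (lf U (X i)) n (d i))) +
      co univ (fC * ∏ i, (1 + lf W (X i) * ginv (lf U (X i)) n)) := by
    have h1 : ∀ i, lf univ (X i) = lf W (X i) + lf U (X i) := fun i =>
      (sum_filter_add_sum_filter_not _ _ _).symm
    have h2 : Ideal.Quotient.mk (Nul (Fin n) R) F =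
        Ideal.Quotient.mk (Nul (Fin n) R) (fB + fC) := by
      rw [Ideal.Quotient.eq]
      intro S
      rw [map_sub, map_add, hfB, hfC]
      split_ifs <;> simp
    rw [← co_per, ← map_add]
    refine co_congr ?_ _
    have h3 : Ideal.Quotient.mk (Nul (Fin n) R) (∏ i, (1 + lf univ (X i))) =
        Ideal.Quotient.mk (Nul (Fin n) R) F * Ideal.Quotient.mk (Nul (Fin n) R)
          (∏ i, (1 + lf W (X i) * ginv (lf U (X i)) n)) := by
      rw [← map_mul, hF, ← prod_mul_distrib, map_prod, map_prod]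
      exact prod_congr rfl fun i _ => by rw [h1, factor₁ (hJ i)]
    have h4 : Ideal.Quotient.mk (Nul (Fin n) R) (∏ i, (pol (lf W (X i)) (lf U (X i)) n (c i) *
        pol (lf W (X i)) (lf U (X i)) n (d i))) = Ideal.Quotient.mk (Nul (Fin n) R)
          (∏ i, (1 + lf W (X i) * ginv (lf U (X i)) n)) := by
      rw [map_prod, map_prod]
      exact prod_congr rfl fun i _ => (hcd i).symm
    rw [h3, h2, map_add, map_add, map_mul, map_mul, h4, add_mul]
  -- the three phases
  have hMr := partM hZ hG hXA (U := U) fun v hv => by simp [ωM, (hU v).1 hv]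
  have hB1 : Reach At (V (ωM n) 0 F) (G * 1) (V (ωB n) δ fB) := step hB le_rfl fun S hS => by
    rw [hfB, if_pos hS]
    exact Reach.of_or h0 (hFV S)
  have hB2 := partB (L := 36) (W := W) (U := U) (f := fB) hZ hB hXA
    (fun v hv => by simp [ωB, (hW v).1 hv]) (fun v hv => by simp [ωB, (hU v).1 hv])
    (fun S hS => by
      by_contra h
      exact hS (by rw [hfB, if_neg h])) hc hd
  have hC := partC (f := fC) (A := V (ωM n) 0 F) hZ hXA hW hU hWc.le (fun T hT => by
      rw [hfC] at hT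
      have h1 : ¬ δ ≤ wt (ωB n) T := fun h => hT (if_pos h)
      rw [if_neg h1] at hT
      have h2 := hFM T hT
      have h3 : ∀ S : Finset (Fin n), wt (ωB n) S = S.card + 37 * wt (ωM n) S := fun S => by
        rw [← wt_one, wt, wt, wt, mul_sum, ← sum_add_distrib]
        refine sum_congr rfl fun v _ => ?_
        unfold ωB ωM
        split_ifs <;> norm_num
      have h4 : wt (ωM n) univ = -(W.card : ℤ) := by
        simp [wt, ωM, hWd, sum_ite]
      have h5 := h3 T
      have h6 := h3 univ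
      rw [card_univ, Fintype.card_fin] at h6
      omega) hH fun T => by
      rw [hfC]
      split_ifs
      · exact Or.inr rfl
      · exact hFV T
  rw [Fintype.card_fin] at hMr hB2
  rw [hper]
  refine (hMr.trans (((hB1.trans hB2).mono subset_rfl le_rfl
    (Set.singleton_subset_iff.2 (mem_V le_rfl))).add hC)).le ?_
  have h1 : 1 ≤ (n + 1) ^ 5 := Nat.one_le_pow _ _ (by omega)
  have h2 : n * (n + 1) ^ 4 ≤ (n + 1) ^ 5 := by
    rw [pow_succ' _ 4]
    exact Nat.mul_le_mul_right _ (by omega)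
  have h3 : (n + 1) ^ 2 ≤ (n + 1) ^ 5 := Nat.pow_le_pow_right (by omega) (by omega)
  calc _ = G * (5 + n * (7 * n + 5) + 20 * (n * (n + 1) ^ 4)) + 2 := by ring
    _ ≤ G * (100 * (n + 1) ^ 5) + 100 * (n + 1) ^ 5 :=
      add_le_add (Nat.mul_le_mul_left _ (by nlinarith)) (by omega)
    _ = _ := by ring

theorem main : ∃ n₀ : ℕ, ∀ n, n₀ ≤ n → ∀ (R : Type*) [CommRing R] (At : Set R),
    (∀ z : ℤ, (z : R) ∈ At) → ∀ M : Matrix (Fin n) (Fin n) R, (∀ v i, M v i ∈ At) →
      ∃ c : ℕ, (c : ℝ) ≤ (999 / 500) ^ n ∧ Sk At {M.permanent} c := by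
  obtain ⟨c₁, h₁⟩ := cntB
  obtain ⟨c₂, h₂⟩ := cntM
  obtain ⟨c₃, h₃⟩ := cntC
  obtain ⟨n₀, h⟩ := final (max c₁ (max c₂ c₃))
  refine ⟨n₀, fun n hn R _ At hZ M hM => ?_⟩
  have hp : (0 : ℝ) ≤ (799 / 400) ^ n := by positivity
  have k₁ := (h₁ n).trans (mul_le_mul_of_nonneg_right (le_max_left c₁ (max c₂ c₃)) hp)
  have k₂ := (h₂ n).trans (mul_le_mul_of_nonneg_right
    ((le_max_left c₂ c₃).trans (le_max_right c₁ _)) hp)
  have k₃ := fun D => (h₃ n D).trans (mul_le_mul_of_nonneg_right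
    ((le_max_right c₂ c₃).trans (le_max_right c₁ _)) hp)
  refine ⟨_, ?_, (reach_per hZ M hM (Nat.le_floor k₁) (Nat.le_floor k₂)
    fun D => Nat.le_floor (k₃ D)).st⟩
  refine le_trans ?_ (h n hn)
  push_cast
  gcongr
  exact Nat.floor_le ((Nat.cast_nonneg _).trans k₁)

end Pool.Agent.Lib.MP_8b1d3b_lc.Gr
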