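import Mathlib

/-! A factorisation of `1 + a / (1 + y)` into a part of high slope and a part of low slope. -/

set_option autoImplicit false

namespace Pool.Agent.Lib.MP_8b1d3b_lc.Gr

open Finset

variable {P : Type*} [CommRing P]

/-- integer combinations of the monomials `y ^ t * a ^ r` with `p r t` -/
def Sp (a y : P) (p : ℕ → ℕ → Prop) : Submodule ℤ P :=
  Submodule.span ℤ {z | ∃ r t, p r t ∧ z = y ^ t * a ^ r}

variable {a y : P} {p q w : ℕ → ℕ → Prop}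

theorem Sp_gen {r t : ℕ} (h : p r t) : y ^ t * a ^ r ∈ Sp a y p :=
  Submodule.subset_span ⟨r, t, h, rfl⟩

theorem Sp_mono (h : ∀ r t, p r t → q r t) {f : P} (hf : f ∈ Sp a y p) : f ∈ Sp a y q := by
  refine Submodule.span_mono ?_ hf
  rintro _ ⟨r, t, h1, rfl⟩
  exact ⟨r, t, h r t h1, rfl⟩

theorem Sp_mul (h : ∀ r t r' t', p r t → q r' t' → w (r + r') (t + t')) {f g : P}
    (hf : f ∈ Sp a y p) (hg : g ∈ Sp a y q) : f * g ∈ Sp a y w := by
  have h1 := Submodule.mul_mem_mul hf hg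
  rw [Sp, Sp, Submodule.span_mul_span] at h1
  refine Submodule.span_mono ?_ h1
  rintro _ ⟨_, ⟨r, t, h2, rfl⟩, _, ⟨r', t', h3, rfl⟩, rfl⟩
  exact ⟨r + r', t + t', h r t r' t' h2 h3, by ring⟩

theorem Sp_split (h : ∀ r t, w r t → p r t ∨ q r t) {f : P} (hf : f ∈ Sp a y w) :
    ∃ g ∈ Sp a y p, ∃ k ∈ Sp a y q, g + k = f := by
  rw [← Submodule.mem_sup]
  refine Submodule.span_le.2 ?_ hf
  rintro _ ⟨r, t, h1, rfl⟩
  rcases h r t h1 with h2 | h2
  · exact Submodule.mem_sup_left (Sp_gen h2)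
  · exact Submodule.mem_sup_right (Sp_gen h2)

theorem wh (L : ℕ) {f : P} (hf : f ∈ Sp a y fun r _ => 1 ≤ r) (ρ : ℕ) :
    ∃ h ∈ Sp a y fun r t => 1 ≤ r ∧ L * r ≤ t, ∃ l ∈ Sp a y fun r t => 1 ≤ r ∧ t ≤ L * r,
      ∃ e ∈ Sp a y fun r _ => ρ + 1 ≤ r, 1 + f = (1 + h) * (1 + l) + e := by
  induction ρ with
  | zero => exact ⟨0, zero_mem _, 0, zero_mem _, f, hf, by ring⟩
  | succ ρ ih =>
    obtain ⟨h, hh, l, hl, e, he, h1⟩ := ih
    obtain ⟨u, hu, v, hv, rfl⟩ := Sp_split (p := fun r t => ρ + 1 ≤ r ∧ L * r ≤ t)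
      (q := fun r t => ρ + 1 ≤ r ∧ t ≤ L * r) (fun r t h2 => by omega) he
    refine ⟨h + u, add_mem hh (Sp_mono (fun r t h2 => by omega) hu),
      l + v, add_mem hl (Sp_mono (fun r t h2 => by omega) hv),
      -(u * l + h * v + u * v), neg_mem (add_mem (add_mem ?_ ?_) ?_), by rw [h1]; ring⟩
    · exact Sp_mul (fun r t r' t' h2 h3 => by omega) hu hl
    · exact Sp_mul (fun r t r' t' h2 h3 => by omega) hh hv
    · exact Sp_mul (fun r t r' t' h2 h3 => by omega) hu hv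

/-- the truncated polynomial with coefficients `c` -/
def pol (a y : P) (n : ℕ) (c : ℕ × ℕ → ℤ) : P :=
  ∑ q ∈ range (n + 1) ×ˢ range (n + 1), c q • (y ^ q.2 * a ^ q.1)

theorem Sp_fin {J : Ideal P} {n : ℕ} (hJ : ∀ r t, n < r + t → y ^ t * a ^ r ∈ J) {f : P}
    (hf : f ∈ Sp a y p) : ∃ c : ℕ × ℕ → ℤ, (∀ q, c q ≠ 0 → p q.1 q.2) ∧
      Ideal.Quotient.mk J f = Ideal.Quotient.mk J (pol a y n c) := by
  induction hf using Submodule.span_induction with
  | mem z hz =>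
    obtain ⟨r, t, h1, rfl⟩ := hz
    by_cases h2 : n < r + t
    · refine ⟨0, fun q hq => absurd rfl hq, ?_⟩
      rw [Ideal.Quotient.eq_zero_iff_mem.2 (hJ r t h2)]
      simp [pol]
    · refine ⟨Pi.single (r, t) 1, fun q hq => ?_, ?_⟩
      · have h3 : q = (r, t) := by
          by_contra h4
          exact hq (Pi.single_eq_of_ne h4 _)
        rw [h3]
        exact h1
      · rw [pol, sum_eq_single (r, t)]
        · simp
        · intro q _ hq
          simp [Pi.single_eq_of_ne hq]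
        · intro h3
          exact absurd (mem_product.2 ⟨mem_range.2 (by omega), mem_range.2 (by omega)⟩) h3
  | zero => exact ⟨0, fun q hq => absurd rfl hq, by simp [pol]⟩
  | add f g _ _ hf hg =>
    obtain ⟨c, h1, h2⟩ := hf
    obtain ⟨d, h3, h4⟩ := hg
    refine ⟨c + d, fun q hq => ?_, ?_⟩
    · by_cases h5 : c q = 0
      · exact h3 q fun h6 => hq (by simp [h5, h6])
      · exact h1 q h5
    · rw [map_add, h2, h4, ← map_add]
      simp only [pol, Pi.add_apply, add_smul, sum_add_distrib]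
  | smul z f _ hf =>
    obtain ⟨c, h1, h2⟩ := hf
    refine ⟨z • c, fun q hq => h1 q fun h3 => hq (by simp [h3]), ?_⟩
    rw [map_zsmul, h2, ← map_zsmul]
    simp only [pol, Pi.smul_apply, smul_eq_mul, mul_smul, smul_sum]

theorem Sp_nul {J : Ideal P} {n : ℕ} (hJ : ∀ r t, n < r + t → y ^ t * a ^ r ∈ J) {f : P}
    (hf : f ∈ Sp a y fun r _ => n + 1 ≤ r) : f ∈ J := by
  induction hf using Submodule.span_induction with
  | mem z hz =>
    obtain ⟨r, t, h1, rfl⟩ := hz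
    exact hJ r t (by omega)
  | zero => exact zero_mem _
  | add f g _ _ hf hg => exact add_mem hf hg
  | smul z f _ hf => exact zsmul_mem hf z

/-- the truncated inverse of `1 + y` -/
def ginv (y : P) (n : ℕ) : P := ∑ t ∈ range (n + 1), (-y) ^ t

theorem factor₁ {J : Ideal P} {n : ℕ} (hJ : ∀ r t, n < r + t → y ^ t * a ^ r ∈ J) :
    Ideal.Quotient.mk J (1 + (a + y)) = Ideal.Quotient.mk J ((1 + y) * (1 + a * ginv y n)) := by
  have h1 : (1 + y) * ginv y n = 1 - (-y) ^ (n + 1) := by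
    rw [ginv, ← mul_neg_geom_sum, sub_neg_eq_add]
  rw [Ideal.Quotient.eq]
  have h2 : 1 + (a + y) - (1 + y) * (1 + a * ginv y n) = (-1) ^ (n + 1) * (y ^ (n + 1) * a ^ 1) := by
    rw [neg_pow] at h1
    linear_combination (-a) * h1
  rw [h2]
  exact J.mul_mem_left _ (hJ 1 (n + 1) (by omega))

theorem factor₂ (L : ℕ) {J : Ideal P} {n : ℕ} (hJ : ∀ r t, n < r + t → y ^ t * a ^ r ∈ J) :
    ∃ c d : ℕ × ℕ → ℤ, (∀ q, c q ≠ 0 → L * q.1 ≤ q.2) ∧ (∀ q, d q ≠ 0 → q.2 ≤ L * q.1) ∧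
      Ideal.Quotient.mk J (1 + a * ginv y n) =
        Ideal.Quotient.mk J (pol a y n c * pol a y n d) := by
  have hf : a * ginv y n ∈ Sp a y fun r _ => 1 ≤ r := by
    rw [ginv, mul_sum]
    refine sum_mem fun t _ => ?_
    have h1 : a * (-y) ^ t = ((-1 : ℤ) ^ t) • (y ^ t * a ^ 1) := by
      rw [neg_pow y, zsmul_eq_mul]
      push_cast
      ring
    rw [h1]
    exact Submodule.smul_mem _ _ (Sp_gen le_rfl)
  obtain ⟨h, hh, l, hl, e, he, h1⟩ := wh L hf n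
  have one : ∀ {p : ℕ → ℕ → Prop}, p 0 0 → (1 : P) ∈ Sp a y p := fun h2 => by
    simpa using Sp_gen (a := a) (y := y) h2
  obtain ⟨c, h2, h3⟩ := Sp_fin (p := fun r t => L * r ≤ t) hJ
    (add_mem (one (by omega)) (Sp_mono (fun r t h2 => h2.2) hh))
  obtain ⟨d, h4, h5⟩ := Sp_fin (p := fun r t => t ≤ L * r) hJ
    (add_mem (one (by omega)) (Sp_mono (fun r t h2 => h2.2) hl))
  refine ⟨c, d, h2, h4, ?_⟩
  rw [h1, map_add, Ideal.Quotient.eq_zero_iff_mem.2 (Sp_nul hJ he), add_zero, map_mul, map_mul,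
    h3, h5]

end Pool.Agent.Lib.MP_8b1d3b_lc.Gr
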