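import Pool.Agent.Lib.MP_8b1d3b_lc.Gr.Alg
import Pool.Agent.Lib.MP_8b1d3b_lc.Gr.WH
import Pool.Agent.Lib.MP_8b1d3b_lc.Gr.Cost

/-! Multiplication by the high and low slope factors on states in a half space. -/

set_option autoImplicit false

namespace Pool.Agent.Lib.MP_8b1d3b_lc.Gr

open Finset MvPolynomial

variable {κ : Type} [Fintype κ] [DecidableEq κ] {R : Type*} [CommRing R] {At : Set R}

/-- the coefficients of `f` at the sets of weight at least `δ` -/
def V (ω : κ → ℤ) (δ : ℤ) (f : MvPolynomial κ R) : Set R :=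
  (fun S => co S f) '' (Gd ω δ : Set (Finset κ))

variable {ω : κ → ℤ} {δ δ' δ₀ : ℤ} {f : MvPolynomial κ R} {G : ℕ} {A : Set R}

theorem mem_V {S : Finset κ} (h : δ ≤ wt ω S) : co S f ∈ V ω δ f :=
  ⟨S, by simpa [Gd] using h, rfl⟩

theorem V_mono (h : δ ≤ δ') : V ω δ' f ⊆ V ω δ f := by
  rintro _ ⟨S, hS, rfl⟩
  exact mem_V (h.trans (by simpa [Gd] using hS))

theorem step {c : ℕ} (hG : (Gd ω δ₀).card ≤ G) (hδ : δ₀ ≤ δ)
    (h : ∀ S, δ ≤ wt ω S → Reach At A c {co S f}) : Reach At A (G * c) (V ω δ f) := by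
  refine (Reach.image (Gd ω δ) fun S hS => h S (by simpa [Gd] using hS)).le
    (Nat.mul_le_mul_right _ (le_trans (card_le_card fun S hS => ?_) hG))
  simp only [Gd, mem_filter, mem_univ, true_and] at hS ⊢
  omega

theorem reach_lf (hZ : ∀ z : ℤ, (z : R) ∈ At) {D S : Finset κ} {x : κ → R} (hx : ∀ v, x v ∈ At)
    (h : ∀ v ∈ D, v ∈ S → co (S.erase v) f ∈ A ∨ co (S.erase v) f = 0) :
    Reach At A (3 * Fintype.card κ + 1) {co S (f * lf D x)} := by
  have h0 : (0 : R) ∈ At := by simpa using hZ 0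
  rw [co_mul_lf]
  refine (Reach.sum h0 (D ∩ S) fun v hv => (Reach.of_or h0
    (h v (mem_inter.1 hv).1 (mem_inter.1 hv).2)).mul (hx v)).le ?_
  have := card_le_univ (D ∩ S)
  omega

omit [Fintype κ] in
theorem wt_erase {S : Finset κ} {v : κ} (h : v ∈ S) : wt ω (S.erase v) + ω v = wt ω S :=
  sum_erase_add S ω h

theorem lf_step (hZ : ∀ z : ℤ, (z : R) ∈ At) (hG : (Gd ω δ₀).card ≤ G) (hδ : δ₀ ≤ δ)
    {D : Finset κ} {x : κ → R} (hx : ∀ v, x v ∈ At) (hD : ∀ v ∈ D, δ' + ω v ≤ δ) :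
    Reach At (V ω δ' f) (G * (3 * Fintype.card κ + 1)) (V ω δ (f * lf D x)) :=
  step hG hδ fun S hS => reach_lf hZ hx fun v hv hvS => Or.inl (mem_V (by
    have h1 := wt_erase (ω := ω) hvS
    have h2 := hD v hv
    omega))

theorem lf_fil (hZ : ∀ z : ℤ, (z : R) ∈ At) (hG : (Gd ω δ₀).card ≤ G) (hf : Fil ω δ₀ f)
    {D : Finset κ} {x : κ → R} (hx : ∀ v, x v ∈ At) :
    Reach At (V ω δ₀ f) (G * (3 * Fintype.card κ + 1)) (V ω δ₀ (f * lf D x)) :=
  step hG le_rfl fun S _ => reach_lf hZ hx fun v _ _ => by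
    by_cases h : co (S.erase v) f = 0
    · exact Or.inr h
    · exact Or.inl (mem_V (hf _ h))

variable {W U : Finset κ} {L : ℕ} {x : κ → R}

theorem mon_lo (hZ : ∀ z : ℤ, (z : R) ∈ At) (hG : (Gd ω δ₀).card ≤ G) (hx : ∀ v, x v ∈ At)
    (hW : ∀ v ∈ W, ω v = -L) (hU : ∀ v ∈ U, ω v = 1) {r t : ℕ} (h : t ≤ L * r) :
    Reach At (V ω δ₀ f) ((t + r) * (G * (3 * Fintype.card κ + 1)))
      (V ω δ₀ (f * (lf U x ^ t * lf W x ^ r))) := by
  have h' : (t : ℤ) ≤ L * r := by exact_mod_cast h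
  have h1 := Reach.chain (At := At) (c := G * (3 * Fintype.card κ + 1))
    (fun j => V ω (δ₀ + L * r - t + j) (f * lf U x ^ j)) t fun j _ => by
      rw [pow_succ, ← mul_assoc]
      refine lf_step hZ hG (by push_cast; omega) hx fun v hv => ?_
      rw [hU v hv]
      push_cast
      omega
  have h2 := Reach.chain (At := At) (c := G * (3 * Fintype.card κ + 1))
    (fun j => V ω (δ₀ + L * r - L * j) (f * lf U x ^ t * lf W x ^ j)) r fun j hj => by
      rw [pow_succ, ← mul_assoc]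
      have h3 : (L : ℤ) * ((j + 1 : ℕ) : ℤ) ≤ L * r :=
        mul_le_mul_of_nonneg_left (by exact_mod_cast hj) (by positivity)
      refine lf_step hZ hG (by omega) hx fun v hv => ?_
      rw [hW v hv]
      push_cast
      ring_nf
      omega
  simp only [pow_zero, mul_one, Nat.cast_zero, add_zero, sub_add_cancel, mul_zero, sub_zero,
    add_sub_cancel_right] at h1 h2
  rw [add_mul, ← mul_assoc f]
  exact (h1.mono (V_mono (by omega)) le_rfl subset_rfl).trans h2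

theorem mon_hi (hZ : ∀ z : ℤ, (z : R) ∈ At) (hG : (Gd ω δ₀).card ≤ G) (hx : ∀ v, x v ∈ At)
    (hW : ∀ v ∈ W, ω v = -L) (hU : ∀ v ∈ U, ω v = 1) (hf : Fil ω δ₀ f) (r t : ℕ) :
    Reach At (V ω δ₀ f) ((t + r) * (G * (3 * Fintype.card κ + 1)))
      (V ω δ₀ (f * (lf U x ^ t * lf W x ^ r))) := by
  have h1 := Reach.chain (At := At) (c := G * (3 * Fintype.card κ + 1))
    (fun j => V ω δ₀ (f * lf U x ^ j)) t fun j _ => by
      rw [pow_succ, ← mul_assoc]
      refine lf_fil hZ hG ((hf.mul ((Fil.lf (δ := 1) x fun v hv => (hU v hv).ge).pow j)).mono ?_) hx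
      omega
  have h2 := Reach.chain (At := At) (c := G * (3 * Fintype.card κ + 1))
    (fun j => V ω δ₀ (f * lf U x ^ t * lf W x ^ j)) r fun j hj => by
      rw [pow_succ, ← mul_assoc]
      refine lf_step hZ hG le_rfl hx fun v hv => ?_
      rw [hW v hv]
      omega
  simp only [pow_zero, mul_one] at h1 h2
  rw [add_mul, ← mul_assoc f]
  exact h1.trans h2

theorem pol_step (hZ : ∀ z : ℤ, (z : R) ∈ At) (hG : (Gd ω δ₀).card ≤ G) {a y : MvPolynomial κ R}
    {c : ℕ × ℕ → ℤ}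
    (h : ∀ q, c q ≠ 0 → Reach At (V ω δ₀ f) ((q.2 + q.1) * (G * (3 * Fintype.card κ + 1)))
      (V ω δ₀ (f * (y ^ q.2 * a ^ q.1)))) :
    Reach At (V ω δ₀ f) (10 * G * (Fintype.card κ + 1) ^ 4)
      (V ω δ₀ (f * pol a y (Fintype.card κ) c)) := by
  have h0 : (0 : R) ∈ At := by simpa using hZ 0
  set n := Fintype.card κ with hn
  have h1 := Reach.biUnion (At := At) (A := V ω δ₀ f) (c := 2 * n * (G * (3 * n + 1)))
    ((range (n + 1) ×ˢ range (n + 1)).filter fun q => c q ≠ 0)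
    (F := fun q => V ω δ₀ (f * (y ^ q.2 * a ^ q.1))) fun q hq => by
      obtain ⟨h2, h3⟩ := mem_filter.1 hq
      have h4 := mem_range.1 (mem_product.1 h2).1
      have h5 := mem_range.1 (mem_product.1 h2).2
      exact (h q h3).le (Nat.mul_le_mul_right _ (by omega))
  have h2 : ((range (n + 1) ×ˢ range (n + 1)).filter fun q => c q ≠ 0).card ≤ (n + 1) ^ 2 := by
    refine (card_filter_le _ _).trans ?_
    rw [card_product, card_range, sq]
  refine (h1.trans (step (c := (n + 1) ^ 2 * 2 + 1) hG le_rfl fun S hS => ?_)).le ?_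
  · rw [pol, mul_sum, map_sum]
    refine (Reach.sum (c := 1) h0 _ fun q hq => ?_).le
      (by rw [card_product, card_range, sq])
    rw [mul_smul_comm, map_zsmul, zsmul_eq_mul, mul_comm]
    by_cases h3 : c q = 0
    · rw [h3, Int.cast_zero, mul_zero]
      exact Reach.atom h0
    · exact (Reach.of_mem (Set.mem_iUnion₂.2 ⟨q, mem_filter.2 ⟨hq, h3⟩, mem_V hS⟩)).mul (hZ _)
  · calc _ ≤ (n + 1) ^ 2 * (2 * n * (G * (3 * n + 1))) + G * ((n + 1) ^ 2 * 2 + 1) := by gcongr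
      _ = G * ((n + 1) ^ 2 * (2 * n * (3 * n + 1)) + ((n + 1) ^ 2 * 2 + 1)) := by ring
      _ ≤ G * (10 * (n + 1) ^ 4) := Nat.mul_le_mul_left _ (by nlinarith [Nat.zero_le n, Nat.zero_le (n ^ 2), Nat.zero_le (n ^ 3), Nat.zero_le (n ^ 4)])
      _ = _ := by ring

omit [Fintype κ] in
theorem fil_pol (hW : ∀ v ∈ W, ω v = -L) (hU : ∀ v ∈ U, ω v = 1) {n : ℕ} {c : ℕ × ℕ → ℤ}
    (hc : ∀ q, c q ≠ 0 → L * q.1 ≤ q.2) : Fil ω 0 (pol (lf W x) (lf U x) n c) := by
  refine sum_induction _ (Fil ω 0) (fun _ _ => Fil.add) Fil.zero fun q _ => ?_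
  by_cases h : c q = 0
  · rw [h, zero_smul]
    exact Fil.zero
  · refine Fil.zsmul _ ((((Fil.lf (δ := 1) x fun v hv => (hU v hv).ge).pow q.2).mul
      ((Fil.lf (δ := -L) x fun v hv => (hW v hv).ge).pow q.1)).mono ?_)
    have h1 : (L : ℤ) * q.1 ≤ q.2 := by exact_mod_cast hc q h
    nlinarith

/-- Part B: all high factors, then all low factors. -/
theorem partB (hZ : ∀ z : ℤ, (z : R) ∈ At) (hG : (Gd ω δ₀).card ≤ G) {ι : Type*} [Fintype ι]
    {X : ι → κ → R} (hX : ∀ i v, X i v ∈ At) (hW : ∀ v ∈ W, ω v = -L) (hU : ∀ v ∈ U, ω v = 1)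
    (hf : Fil ω δ₀ f) {c d : ι → ℕ × ℕ → ℤ} (hc : ∀ i q, c i q ≠ 0 → L * q.1 ≤ q.2)
    (hd : ∀ i q, d i q ≠ 0 → q.2 ≤ L * q.1) :
    Reach At (V ω δ₀ f) (2 * (Fintype.card ι * (10 * G * (Fintype.card κ + 1) ^ 4)))
      (V ω δ₀ (f * ∏ i, (pol (lf W (X i)) (lf U (X i)) (Fintype.card κ) (c i) *
        pol (lf W (X i)) (lf U (X i)) (Fintype.card κ) (d i)))) := by
  classical
  have h1 := Reach.fold (At := At) (c := 10 * G * (Fintype.card κ + 1) ^ 4)
    (fun t => V ω δ₀ (f * ∏ i ∈ t, pol (lf W (X i)) (lf U (X i)) (Fintype.card κ) (c i))) univ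
    fun t i hi => by
      rw [prod_insert hi, mul_comm (pol _ _ _ _), ← mul_assoc]
      refine pol_step hZ hG fun q _ => mon_hi hZ hG (hX i) hW hU ?_ _ _
      simpa using hf.mul (Fil.prod t (d := fun _ => 0) fun j _ => fil_pol hW hU (hc j))
  have h2 := Reach.fold (At := At) (c := 10 * G * (Fintype.card κ + 1) ^ 4)
    (fun t => V ω δ₀ (f * (∏ i, pol (lf W (X i)) (lf U (X i)) (Fintype.card κ) (c i)) *
      ∏ i ∈ t, pol (lf W (X i)) (lf U (X i)) (Fintype.card κ) (d i))) univ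
    fun t i hi => by
      rw [prod_insert hi, mul_comm (pol _ _ _ _), ← mul_assoc]
      exact pol_step hZ hG fun q hq => mon_lo hZ hG (hX i) hW hU (hd i q hq)
  simp only [prod_empty, mul_one, card_univ] at h1 h2
  rw [two_mul, prod_mul_distrib, ← mul_assoc f]
  exact h1.trans h2

/-- Phase M: the factors `1 + y i`. -/
theorem partM (hZ : ∀ z : ℤ, (z : R) ∈ At) (hG : (Gd ω 0).card ≤ G) {ι : Type*} [Fintype ι]
    {X : ι → κ → R} (hX : ∀ i v, X i v ∈ At) (hU : ∀ v ∈ U, ω v = 0) :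
    Reach At ∅ (G + Fintype.card ι * (G * (3 * Fintype.card κ + 2)))
      (V ω 0 (∏ i, (1 + lf U (X i)))) := by
  classical
  have h1 : Reach At ∅ (G * 1) (V ω 0 (1 : MvPolynomial κ R)) := step hG le_rfl fun S _ => by
    rw [co_one]
    refine Reach.atom ?_
    split_ifs
    · simpa using hZ 1
    · simpa using hZ 0
  have h2 := Reach.fold (At := At) (c := G * (3 * Fintype.card κ + 2))
    (fun t => V ω 0 (∏ i ∈ t, (1 + lf U (X i)))) univ fun t i hi => by
      rw [prod_insert hi, mul_comm (1 + _), mul_add _ 1, mul_one]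
      refine step hG le_rfl fun S hS => ?_
      rw [map_add]
      refine ((Reach.of_mem (mem_V hS)).add (reach_lf hZ (hX i) fun v hv hvS => Or.inl
        (mem_V ?_))).le (by omega)
      have h3 := wt_erase (ω := ω) hvS
      have h4 := hU v hv
      omega
  simp only [prod_empty, card_univ] at h2
  rw [mul_one] at h1
  exact h1.trans h2

end Pool.Agent.Lib.MP_8b1d3b_lc.Gr
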