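import Pool.Agent.Lib.MP_8b1d3b_lc.Gr.PartB

/-! Few rows: the columns are read one after the other, the state is the content of the rows. -/

set_option autoImplicit false

namespace Pool.Agent.Lib.MP_8b1d3b_lc.Gr

open Finset MvPolynomial

section
variable {P : Type*} [CommRing P]

/-- `1`, `a`, `a y`, `a y ^ 2`, ... -/
def tm (a y : P) (s : ℕ) : P := if s = 0 then 1 else a * y ^ (s - 1)

/-- the signs `1, 1, -1, 1, ...` -/
def ep (s : ℕ) : ℤ := if s = 0 then 1 else (-1) ^ (s - 1)

theorem one_add_ginv (a y : P) (n : ℕ) :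
    1 + a * ginv y n = ∑ s ∈ range (n + 2), (ep s : P) * tm a y s := by
  rw [sum_range_succ', ginv, mul_sum, add_comm]
  congr 1
  · refine sum_congr rfl fun s _ => ?_
    simp only [ep, tm, Nat.add_one_ne_zero, if_false, Nat.add_sub_cancel]
    rw [neg_pow y]
    push_cast
    ring
  · simp [ep, tm]

theorem prod_ginv {ι : Type*} [Fintype ι] [DecidableEq ι] (a y : ι → P) (n : ℕ) :
    ∏ i, (1 + a i * ginv (y i) n) = ∑ o ∈ Fintype.piFinset fun _ : ι => range (n + 2),
      (∏ i, ep (o i)) • ∏ i, tm (a i) (y i) (o i) := by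
  simp only [one_add_ginv]
  rw [prod_univ_sum]
  refine sum_congr rfl fun o _ => ?_
  rw [prod_mul_distrib, zsmul_eq_mul]
  push_cast
  rfl

end

variable {R : Type*} [CommRing R] {At : Set R}

theorem pderiv_prod {κ ι : Type*} [DecidableEq ι] (v : κ) (s : Finset ι)
    (F : ι → MvPolynomial κ R) :
    pderiv v (∏ i ∈ s, F i) = ∑ i ∈ s, pderiv v (F i) * ∏ j ∈ s.erase i, F j := by
  induction s using Finset.induction_on with
  | empty => simp
  | insert a s ha ih =>
    rw [prod_insert ha, pderiv_mul, ih, sum_insert ha, erase_insert ha, mul_sum]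
    congr 1
    refine sum_congr rfl fun i hi => ?_
    have h1 : a ≠ i := fun h => ha (h ▸ hi)
    rw [erase_insert_of_ne h1, prod_insert fun h => ha (mem_of_mem_erase h)]
    ring

variable {n : ℕ} {W U : Finset (Fin n)} {X : Fin n → Fin n → R}

/-- the product of the row terms -/
noncomputable def To (W U : Finset (Fin n)) (X : Fin n → Fin n → R) (o : Fin n → ℕ) :
    MvPolynomial (Fin n) R := ∏ i, tm (lf W (X i)) (lf U (X i)) (o i)

theorem pderiv_To {v : Fin n} {o e : Fin n → ℕ}
    (h : ∀ i, pderiv v (tm (lf W (X i)) (lf U (X i)) (o i)) =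
      C (X i v * e i) * tm (lf W (X i)) (lf U (X i)) (o i - 1)) :
    pderiv v (To W U X o) = ∑ i, C (X i v * e i) * To W U X (Function.update o i (o i - 1)) := by
  rw [To, pderiv_prod]
  refine sum_congr rfl fun i _ => ?_
  rw [h, To, ← mul_prod_erase univ _ (mem_univ i), Function.update_self, mul_assoc]
  congr 2
  refine prod_congr rfl fun j hj => ?_
  rw [Function.update_of_ne (ne_of_mem_erase hj)]

theorem pderiv_tm_U {v : Fin n} (hW : v ∉ W) (hU : v ∈ U) (x : Fin n → R) (s : ℕ) :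
    pderiv v (tm (lf W x) (lf U x) s) =
      C (x v * ((s - 1 : ℕ) : R)) * tm (lf W x) (lf U x) (s - 1) := by
  rcases s with _ | _ | s
  · simp [tm]
  · simp [tm, pderiv_lf, hW]
  · simp only [tm, Nat.add_one_ne_zero, if_false, Nat.add_sub_cancel, pderiv_mul, pderiv_pow,
      pderiv_lf, if_neg hW, if_pos hU, map_zero, zero_mul, zero_add, map_mul, map_natCast]
    ring

theorem pderiv_tm_W {v : Fin n} (hW : v ∈ W) (x : Fin n → R) {s : ℕ} (hs : s ≤ 1) :
    pderiv v (tm (lf W x) (lf U x) s) = C (x v * (s : R)) * tm (lf W x) (lf U x) (s - 1) := by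
  rcases s with _ | _ | s
  · simp [tm]
  · simp [tm, pderiv_lf, hW]
  · omega

theorem fil_To {ω : Fin n → ℤ} {α β : ℤ} (hW : ∀ v ∈ W, α ≤ ω v) (hU : ∀ v ∈ U, β ≤ ω v)
    (o : Fin n → ℕ) :
    Fil ω (∑ i, if o i = 0 then 0 else α + (o i - 1 : ℕ) * β) (To W U X o) := by
  refine Fil.prod _ fun i _ => ?_
  unfold tm
  split_ifs
  · exact Fil.one
  · exact (Fil.lf _ hW).mul ((Fil.lf _ hU).pow _)

theorem To_deg {S : Finset (Fin n)} {o : Fin n → ℕ} (h : co S (To W U X o) ≠ 0) :
    ∑ i, o i ≤ S.card := by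
  have h1 := fil_To (X := X) (W := W) (U := U) (ω := fun _ => 1) (fun _ _ => le_rfl)
    (fun _ _ => le_rfl) o S h
  rw [wt_one] at h1
  have h2 : ((∑ i, o i : ℕ) : ℤ) = ∑ i, if o i = 0 then 0 else 1 + (o i - 1 : ℕ) * (1 : ℤ) := by
    rw [Nat.cast_sum]
    refine sum_congr rfl fun i _ => ?_
    split_ifs <;> omega
  omega

theorem To_supp {S : Finset (Fin n)} {o : Fin n → ℕ} (h : co S (To W U X o) ≠ 0) :
    (univ.filter fun i => o i ≠ 0).card ≤ W.card := by
  have h1 := fil_To (X := X) (W := W) (U := U) (ω := fun v => if v ∈ W then 1 else 0) (α := 1)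
    (β := 0) (fun v hv => by simp [hv]) (fun v _ => by split_ifs <;> omega) o S h
  have h2 : (((univ.filter fun i => o i ≠ 0).card : ℕ) : ℤ) =
      ∑ i, if o i = 0 then 0 else 1 + (o i - 1 : ℕ) * (0 : ℤ) := by
    rw [card_filter, Nat.cast_sum]
    refine sum_congr rfl fun i _ => ?_
    by_cases h3 : o i = 0 <;> simp [h3]
  have h3 : wt (fun v => if v ∈ W then 1 else 0) S = (S ∩ W).card := by
    simp [wt, sum_ite_mem]
  have h4 := card_le_card (inter_subset_right (s₁ := S) (s₂ := W))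
  omega

theorem To_le_one {S : Finset (Fin n)} {o : Fin n → ℕ} (h : co S (To W U X o) ≠ 0)
    (hS : ∀ v ∈ S, v ∉ U) (i : Fin n) : o i ≤ 1 := by
  have h1 := fil_To (X := X) (W := W) (U := U) (ω := fun v => if v ∈ U then 1 else 0) (α := 0)
    (β := 1) (fun v _ => by split_ifs <;> omega) (fun v hv => by simp [hv]) o S h
  have h2 : wt (fun v => if v ∈ U then 1 else 0) S = 0 :=
    sum_eq_zero fun v hv => if_neg (hS v hv)
  have h3 := single_le_sum (s := univ)
    (f := fun i => if o i = 0 then 0 else 0 + (o i - 1 : ℕ) * (1 : ℤ))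
    (fun j _ => by split_ifs <;> omega) (mem_univ i)
  rw [h2] at h1
  have h4 := h3.trans h1
  split_ifs at h4 <;> omega

/-- the value of a state of part C -/
noncomputable def val (W U : Finset (Fin n)) (X : Fin n → Fin n → R) (p : Finset (Fin n) → R)
    (D Z : Finset (Fin n)) (o : Fin n → ℕ) : R :=
  ∑ T ∈ univ.filter fun T => T \ D = Z, p T * co (D \ T) (To W U X o)

variable {p : Finset (Fin n) → R} {D Z : Finset (Fin n)} {o : Fin n → ℕ}

theorem val_ne (h : val W U X p D Z o ≠ 0) :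
    ∃ T, T \ D = Z ∧ p T ≠ 0 ∧ co (D \ T) (To W U X o) ≠ 0 := by
  obtain ⟨T, hT, h1⟩ := exists_ne_zero_of_sum_ne_zero h
  exact ⟨T, (mem_filter.1 hT).2, left_ne_zero_of_mul h1, right_ne_zero_of_mul h1⟩

theorem val_mem (hW : W.card ≤ n / 50) (hp : ∀ T, p T ≠ 0 → T.card + 37 * (n / 50) ≤ n)
    (h : val W U X p D Z o ≠ 0) : (Z, o) ∈ St n D := by
  obtain ⟨T, rfl, h1, h2⟩ := val_ne h
  have h3 := hp T h1
  have h4 := To_deg h2
  have h5 := To_supp h2
  have h6 := card_le_card (sdiff_subset (s := T) (t := D))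
  have h7 := card_le_card (sdiff_subset (s := D) (t := T))
  have h8 : D.card ≤ n := by simpa using card_le_univ D
  refine mem_filter.2 ⟨mem_product.2 ⟨mem_powerset.2 fun v hv => ?_,
    Fintype.mem_piFinset.2 fun i => mem_range.2 ?_⟩, by dsimp only; omega, by dsimp only; omega,
    h5.trans hW⟩
  · exact mem_compl.2 (mem_sdiff.1 hv).2
  · have h9 := single_le_sum (s := univ) (f := o) (fun _ _ => Nat.zero_le _) (mem_univ i)
    dsimp only
    omega

theorem val_insert {v : Fin n} (hv : v ∉ D) (hZ : v ∉ Z) {e : Fin n → ℕ}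
    (h : pderiv v (To W U X o) =
      ∑ i, C (X i v * e i) * To W U X (Function.update o i (o i - 1))) :
    val W U X p (insert v D) Z o = val W U X p D (insert v Z) o +
      ∑ i, val W U X p D Z (Function.update o i (o i - 1)) * X i v * e i := by
  unfold val
  rw [← sum_filter_add_sum_filter_not _ fun T => v ∈ T, filter_filter, filter_filter]
  congr 1
  · refine sum_congr (filter_congr fun T _ => ?_) fun T hT => ?_
    · constructor
      · rintro ⟨rfl, h1⟩
        rw [sdiff_insert, insert_erase (mem_sdiff.2 ⟨h1, hv⟩)]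
      · intro h1
        have h2 : v ∈ T \ D := h1 ▸ mem_insert_self v Z
        rw [sdiff_insert, h1, erase_insert hZ]
        exact ⟨rfl, (mem_sdiff.1 h2).1⟩
    · have h2 : v ∈ T \ D := (mem_filter.1 hT).2 ▸ mem_insert_self v Z
      rw [insert_sdiff_of_mem _ (mem_sdiff.1 h2).1]
  · simp only [sum_mul]
    rw [sum_comm]
    refine sum_congr (filter_congr fun T _ => ?_) fun T hT => ?_
    · constructor
      · rintro ⟨rfl, h1⟩
        rw [sdiff_insert, erase_eq_of_notMem fun h2 => h1 (mem_sdiff.1 h2).1]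
      · intro h1
        rw [sdiff_insert, h1, erase_eq_of_notMem hZ]
        exact ⟨rfl, fun h2 => hZ (h1 ▸ mem_sdiff.2 ⟨h2, hv⟩)⟩
    · have h1 : v ∉ T := fun h2 => hZ ((mem_filter.1 hT).2 ▸ mem_sdiff.2 ⟨h2, hv⟩)
      rw [insert_sdiff_of_notMem _ h1, co_pderiv (mem_insert_self v _),
        erase_insert fun h2 => hv (mem_sdiff.1 h2).1, h, map_sum, mul_sum]
      refine sum_congr rfl fun i _ => ?_
      rw [co_C_mul]
      ring

/-- the values of all states -/
def VC (W U : Finset (Fin n)) (X : Fin n → Fin n → R) (p : Finset (Fin n) → R)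
    (D : Finset (Fin n)) : Set R :=
  (fun z => val W U X p D z.1 z.2) '' (St n D : Set (Finset (Fin n) × (Fin n → ℕ)))

theorem val_or (hW : W.card ≤ n / 50) (hp : ∀ T, p T ≠ 0 → T.card + 37 * (n / 50) ≤ n) :
    val W U X p D Z o ∈ VC W U X p D ∨ val W U X p D Z o = 0 := by
  by_cases h : val W U X p D Z o = 0
  · exact Or.inr h
  · exact Or.inl ⟨(Z, o), val_mem hW hp h, rfl⟩

theorem col_step (hZ : ∀ z : ℤ, (z : R) ∈ At) (hX : ∀ i v, X i v ∈ At) (hW : W.card ≤ n / 50)
    (hp : ∀ T, p T ≠ 0 → T.card + 37 * (n / 50) ≤ n) {H : ℕ} (hH : ∀ D, (St n D).card ≤ H)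
    {v : Fin n} (hv : v ∉ D)
    (h : (v ∉ W ∧ v ∈ U) ∨ (v ∈ W ∧ ∀ w ∈ insert v D, w ∉ U)) :
    Reach At (VC W U X p D) (H * (4 * n + 3)) (VC W U X p (insert v D)) := by
  have h0 : (0 : R) ∈ At := by simpa using hZ 0
  refine (Reach.image (c := 4 * n + 3) _ fun z hz => ?_).le (Nat.mul_le_mul_right _ (hH _))
  obtain ⟨Z, o⟩ := z
  dsimp only
  by_cases h1 : val W U X p (insert v D) Z o = 0
  · rw [h1]
    exact (Reach.atom h0).le (by omega)
  obtain ⟨T, h2, -, h3⟩ := val_ne h1
  have h4 : v ∉ Z := fun h5 => (mem_sdiff.1 (h2 ▸ h5)).2 (mem_insert_self v D)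
  obtain ⟨e, he⟩ : ∃ e : Fin n → ℕ, pderiv v (To W U X o) =
      ∑ i, C (X i v * e i) * To W U X (Function.update o i (o i - 1)) := by
    rcases h with ⟨h5, h6⟩ | ⟨h5, h6⟩
    · exact ⟨fun i => o i - 1, pderiv_To fun i => pderiv_tm_U h5 h6 _ _⟩
    · exact ⟨o, pderiv_To fun i => pderiv_tm_W h5 _
        (To_le_one h3 (fun w hw => h6 w (mem_sdiff.1 hw).1) i)⟩
  rw [val_insert hv h4 he]
  refine ((Reach.of_or h0 (val_or hW hp)).add (Reach.sum (c := 3) h0 univ fun i _ =>
    ((Reach.of_or h0 (val_or hW hp)).mul (hX i v)).mul (by simpa using hZ (e i)))).le ?_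
  rw [card_univ, Fintype.card_fin]
  omega

theorem partC (hZ : ∀ z : ℤ, (z : R) ∈ At) (hX : ∀ i v, X i v ∈ At)
    (hW : ∀ v, v ∈ W ↔ v.val < n / 50) (hU : ∀ v, v ∈ U ↔ ¬ v.val < n / 50)
    (hW' : W.card ≤ n / 50) {f : MvPolynomial (Fin n) R}
    (hp : ∀ T, co T f ≠ 0 → T.card + 37 * (n / 50) ≤ n) {H : ℕ} (hH : ∀ D, (St n D).card ≤ H)
    {A : Set R} (hA : ∀ T, co T f ∈ A ∨ co T f = 0) :
    Reach At A (H + n * (H * (4 * n + 3)) + (H * 2 + 1))
      {co univ (f * ∏ i, (1 + lf W (X i) * ginv (lf U (X i)) n))} := by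
  have h0 : (0 : R) ∈ At := by simpa using hZ 0
  have h1 : Reach At A H (VC W U X (fun T => co T f) ∅) := by
    refine (Reach.image (c := 1) _ fun z hz => Reach.of_or h0 ?_).le (by simpa using hH ∅)
    obtain ⟨Z, o⟩ := z
    have h2 : o = 0 := by
      have h3 := (mem_filter.1 hz).2.2.1
      funext i
      have h4 := single_le_sum (s := univ) (f := o) (fun _ _ => Nat.zero_le _) (mem_univ i)
      simp only [card_empty] at h3
      simp only [Pi.zero_apply]
      omega
    have h3 : val W U X (fun T => co T f) ∅ Z o = co Z f := by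
      simp [val, h2, To, tm, co_one, filter_eq']
    dsimp only
    rw [h3]
    exact hA Z
  have h2 := Reach.chain (At := At) (c := H * (4 * n + 3))
    (fun j => VC W U X (fun T => co T f) (univ.filter fun v => v.val < j)) n fun j hj => by
      have h3 : (univ.filter fun v : Fin n => v.val < j + 1) =
          insert ⟨j, hj⟩ (univ.filter fun v : Fin n => v.val < j) := by
        ext v
        simp only [mem_filter, mem_univ, true_and, mem_insert, Fin.ext_iff]
        omega
      rw [h3]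
      refine col_step hZ hX hW' hp hH (by simp) ?_
      by_cases h4 : j < n / 50
      · refine Or.inr ⟨(hW _).2 h4, fun w hw h5 => (hU w).1 h5 ?_⟩
        rw [← h3] at hw
        have h6 := (mem_filter.1 hw).2
        omega
      · exact Or.inl ⟨fun h5 => h4 ((hW _).1 h5), (hU _).2 h4⟩
  have h3 : (univ.filter fun v : Fin n => v.val < 0) = ∅ := by simp
  have h4 : (univ.filter fun v : Fin n => v.val < n) = univ := by simp
  simp only [h3, h4] at h2
  refine (h1.trans h2).trans ?_
  have h5 : co univ (f * ∏ i, (1 + lf W (X i) * ginv (lf U (X i)) n)) =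
      ∑ o ∈ (Fintype.piFinset fun _ : Fin n => range (n + 2)).filter
        fun o => (∅, o) ∈ St n univ,
        val W U X (fun T => co T f) univ ∅ o * ((∏ i, ep (o i) : ℤ) : R) := by
    rw [prod_ginv, mul_sum, map_sum, sum_filter]
    refine sum_congr rfl fun o _ => ?_
    have h6 : val W U X (fun T => co T f) univ ∅ o = co univ (f * To W U X o) := by
      rw [co_mul, val, powerset_univ, filter_true_of_mem fun T _ => by simp]
    rw [mul_smul_comm, map_zsmul, zsmul_eq_mul, mul_comm, ← To, ← h6]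
    split_ifs with h7
    · rfl
    · have h8 : val W U X (fun T => co T f) univ ∅ o = 0 := by
        by_contra h9
        exact h7 (val_mem hW' hp h9)
      rw [h8, zero_mul]
  rw [h5]
  refine (Reach.sum (c := 1) h0 _ fun o ho =>
    (Reach.of_mem (A := VC W U X (fun T => co T f) univ)
      ⟨(∅, o), mem_coe.2 (mem_filter.1 ho).2, rfl⟩).mul (hZ _)).le ?_
  have h6 : ((Fintype.piFinset fun _ : Fin n => range (n + 2)).filter
      fun o => (∅, o) ∈ St n univ).card ≤ (St n univ).card :=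
    card_le_card_of_injOn (fun o => (∅, o)) (fun o ho => (mem_filter.1 ho).2)
      fun o _ o' _ h => (Prod.ext_iff.1 h).2
  have h7 := hH univ
  omega

end Pool.Agent.Lib.MP_8b1d3b_lc.Gr
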